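import Pool.Agent.Lib.FW.SpecE
import Pool.Agent.Lib.MuZ.Tot
import Pool.Agent.Lib.MuZ.Inst

/-!
# FW, part E, module Ine: lifting of inertia elements
-/

open scoped Pointwise NumberField WithZero

open IsDedekindDomain

noncomputable section

namespace Pool.Agent.FW

open Pool.Agent.MuZ

/-- A closed subgroup realises the automorphisms of the residue ring which are trivial on the
invariants. -/
private theorem EIne_dec (H : Subgroup Gal(Om/ℚ)) (hH : IsClosed (H : Set Gal(Om/ℚ)))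
    (P : Ideal ZZ) (hP : P.IsPrime) (σ : Gal(Om/ℚ)) (hσ : σ • P = P)
    (h : ∀ x : ZZ, (∀ g ∈ H, g • x = x) → σ • x - x ∈ P) :
    ∃ τ ∈ H, τ • P = P ∧ ∀ x : ZZ, τ • x - σ • x ∈ P := by
  have hcomp : CompactSpace H := isCompact_iff_compactSpace.mp hH.isCompact
  let _ : TopologicalSpace ZZ := ⊥
  have hdisc : DiscreteTopology ZZ := ⟨rfl⟩
  have hcs : ContinuousSMul Gal(Om/ℚ) ZZ :=
    continuousSMul_iff_stabilizer_isOpen.mpr tot_stab
  let A := FixedPoints.subalgebra ℤ ZZ H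
  have hcomm : SMulCommClass H A ZZ := by
    constructor
    intro g a b
    show (g : Gal(Om/ℚ)) • ((a : ZZ) * b) = (a : ZZ) * ((g : Gal(Om/ℚ)) • b)
    rw [smul_mul']
    congr 1
    exact a.2 g
  have hinv : Algebra.IsInvariant A ZZ H := by
    constructor
    intro b hb
    exact ⟨⟨b, hb⟩, rfl⟩
  have hover : P.LiesOver (P.under A) := ⟨rfl⟩
  let e : (ZZ ⧸ P) ≃+* (ZZ ⧸ P) :=
    Ideal.quotientEquiv P P (MulSemiringAction.toRingEquiv Gal(Om/ℚ) ZZ σ) hσ.symm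
  have he : ∀ x : ZZ, e (Ideal.Quotient.mk P x) = Ideal.Quotient.mk P (σ • x) := fun x => rfl
  let e' : (ZZ ⧸ P) ≃ₐ[A ⧸ P.under A] (ZZ ⧸ P) := AlgEquiv.ofRingEquiv (f := e) (by
    intro a
    obtain ⟨a, rfl⟩ := Ideal.Quotient.mk_surjective a
    show e (Ideal.Quotient.mk P (a : ZZ)) = Ideal.Quotient.mk P (a : ZZ)
    rw [he, Ideal.Quotient.eq]
    exact h a fun g hg => a.2 ⟨g, hg⟩)
  obtain ⟨g, hg⟩ := Ideal.Quotient.stabilizerHom_surjective_of_profinite (A := A) (G := H)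
    (P.under A) P e'
  refine ⟨(g : H), (g : H).2, ?_, ?_⟩
  · exact MulAction.mem_stabilizer_iff.1 g.2
  · intro x
    rw [← Ideal.Quotient.eq]
    exact DFunLike.congr_fun hg (Ideal.Quotient.mk P x)

theorem tEIne : S_EIne := by
  intro L P hP σ hσ
  have hcl : IsClosed (L.fixingSubgroup : Set Gal(Om/ℚ)) :=
    InfiniteGalois.fixingSubgroup_isClosed L
  have hfix : ∀ x : Om, (∀ g ∈ L.fixingSubgroup, g x = x) → x ∈ L := by
    intro x hx
    rw [← InfiniteGalois.fixedField_fixingSubgroup L]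
    rintro ⟨g, hg⟩
    exact hx g hg
  have hfix' : ∀ g ∈ L.fixingSubgroup, ∀ x ∈ L, g x = x := fun g hg x hx =>
    (IntermediateField.mem_fixingSubgroup_iff L g).1 hg x hx
  have hc : ∀ (g : Gal(Om/ℚ)) (x : ZZ), ((g • x : ZZ) : Om) = g (x : Om) := fun g x => rfl
  have hmem : ∀ x : ZZ, (∀ g ∈ L.fixingSubgroup, g • x = x) → (x : Om) ∈ L := fun x hx =>
    hfix x fun g hg => by rw [← hc, hx g hg]
  -- the first adjustment: `P` and `σ⁻¹ • P` contain the same invariants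
  obtain ⟨ρ, hρ, hρP⟩ := tot_trans L.fixingSubgroup hcl P (σ⁻¹ • P) hP (hP.smul σ⁻¹) (by
    intro x hx
    have h1 : σ • x - x ∈ P := hσ x (hmem x hx)
    rw [Ideal.mem_pointwise_smul_iff_inv_smul_mem, inv_inv]
    constructor
    · intro h2
      have h3 := P.add_mem h1 h2
      rwa [sub_add_cancel] at h3
    · intro h2
      have h3 := P.sub_mem h2 h1
      rwa [sub_sub_cancel] at h3)
  have hσρ : (σ * ρ) • P = P := by
    rw [mul_smul, ← hρP, smul_inv_smul]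
  -- the second adjustment
  obtain ⟨δ, hδ, hδP, hδx⟩ := EIne_dec L.fixingSubgroup hcl P hP (σ * ρ) hσρ (by
    intro x hx
    have h1 : (σ * ρ) • x = σ • x := by rw [mul_smul, hx ρ hρ]
    rw [h1]
    exact hσ x (hmem x hx))
  refine ⟨(σ * ρ) * δ⁻¹, ?_, ?_⟩
  · rw [AddSubgroup.mem_inertia]
    intro x
    have h1 : ((σ * ρ) * δ⁻¹) • x - x = -(δ • (δ⁻¹ • x) - (σ * ρ) • (δ⁻¹ • x)) := by
      rw [smul_inv_smul, mul_smul (σ * ρ), neg_sub]
    rw [h1]
    exact P.neg_mem (hδx _)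
  · intro x hx
    rw [AlgEquiv.mul_apply, AlgEquiv.mul_apply, hfix' _ (inv_mem hδ) x hx, hfix' ρ hρ x hx]

end Pool.Agent.FW
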