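import Pool.Agent.Lib.FW.SpecE

/-! FW, part E: basic facts on the fields `Cy m` and `KI p f`. -/

open scoped Pointwise NumberField WithZero

open IsDedekindDomain

noncomputable section

namespace Pool.Agent.FW

open Pool.Agent.MuZ

private theorem ECy_fix {S : Set Om} {σ : Gal(Om/ℚ)} (h : ∀ z ∈ S, σ z = z) {x : Om}
    (hx : x ∈ IntermediateField.adjoin ℚ S) : σ x = x := by
  induction hx using IntermediateField.adjoin_induction with
  | mem x hx => exact h x hx
  | algebraMap q => exact σ.commutes q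
  | add x y _ _ hx hy => rw [map_add, hx, hy]
  | inv x _ hx => rw [map_inv₀, hx]
  | mul x y _ _ hx hy => rw [map_mul, hx, hy]

private theorem ECy_map {S : Set Om} {σ : Gal(Om/ℚ)} (h : ∀ z ∈ S, σ z ∈ S) {x : Om}
    (hx : x ∈ IntermediateField.adjoin ℚ S) : σ x ∈ IntermediateField.adjoin ℚ S := by
  have h1 : IntermediateField.adjoin ℚ S ≤
      (IntermediateField.adjoin ℚ S).comap (σ : Om →ₐ[ℚ] Om) :=
    IntermediateField.adjoin_le_iff.2 fun z hz => IntermediateField.subset_adjoin ℚ _ (h z hz)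
  exact h1 hx

private theorem ECy_ext (m : ℕ) (hm : 0 < m) : IsCyclotomicExtension {m} ℚ (Cy m) := by
  have : NeZero m := ⟨hm.ne'⟩
  have h : ∀ n ∈ ({m} : Set ℕ), n ≠ 0 → ∃ r : Om, IsPrimitiveRoot r n := by
    intro n hn _
    rw [Set.mem_singleton_iff] at hn
    subst hn
    exact HasEnoughRootsOfUnity.exists_primitiveRoot Om n
  have h1 := IntermediateField.isCyclotomicExtension_adjoin_of_exists_isPrimitiveRoot {m} ℚ Om h
  have h2 : {b : Om | ∃ n ∈ ({m} : Set ℕ), n ≠ 0 ∧ b ^ n = 1} = {z : Om | z ^ m = 1} := by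
    ext b
    constructor
    · rintro ⟨n, hn, -, hb⟩
      rw [Set.mem_singleton_iff] at hn
      subst hn
      exact hb
    · intro hb
      exact ⟨m, rfl, hm.ne', hb⟩
  rw [h2] at h1
  exact h1

private theorem ECy_pow {z : Om} {m m' : ℕ} (h : m ∣ m') (hz : z ^ m = 1) : z ^ m' = 1 := by
  obtain ⟨k, rfl⟩ := h
  rw [pow_mul, hz, one_pow]

private theorem ECy_le {m m' : ℕ} (h : m ∣ m') : Cy m ≤ Cy m' := by
  unfold Cy
  refine IntermediateField.adjoin.mono ℚ _ _ ?_
  intro z hz
  exact ECy_pow h hz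

private theorem ECy_KI {p f : ℕ} (σ : Gal(Om/ℚ)) {x : Om} (hx : x ∈ KI p f) : σ x ∈ KI p f := by
  unfold KI at hx ⊢
  refine ECy_map ?_ hx
  intro z hz
  change IsRt p f (σ z)
  exact IsRt.map (show IsRt p f z from hz) σ

private theorem ECy_leK (p f n : ℕ) : Cy (f * p ^ (n + 1)) ≤ KI p f := by
  unfold Cy KI
  refine IntermediateField.adjoin.mono ℚ _ _ ?_
  intro z hz
  change IsRt p f z
  exact ⟨n + 1, hz⟩

private theorem ECy_fixK {p f : ℕ} {σ : Gal(Om/ℚ)} (hσ : σ ∈ MM p f) {x : Om}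
    (hx : x ∈ KI p f) : σ x = x := by
  unfold KI at hx
  refine ECy_fix ?_ hx
  intro z hz
  exact hσ z (show IsRt p f z from hz)

theorem tECy : S_ECy := by
  refine ⟨fun m hm => ?_, fun m σ => ⟨fun h z hz => ?_, fun h => ?_⟩, fun m σ x hx => ?_,
    fun m m' h => ?_, fun p f σ x hx => ?_, fun p f n => ?_, fun p f x hx σ hσ => ?_,
    fun p f x hx => ?_⟩
  · have : NeZero m := ⟨hm.ne'⟩
    have := ECy_ext m hm
    exact ⟨IsCyclotomicExtension.finiteDimensional {m} ℚ (Cy m), this⟩
  · rw [IntermediateField.mem_fixingSubgroup_iff] at h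
    exact h z (IntermediateField.subset_adjoin ℚ _ hz)
  · rw [IntermediateField.mem_fixingSubgroup_iff]
    exact fun x hx => ECy_fix h hx
  · refine ECy_map (fun z hz => ?_) hx
    change (σ z) ^ m = 1
    rw [← map_pow, show z ^ m = 1 from hz, map_one]
  · exact ECy_le h
  · exact ECy_KI σ hx
  · exact ECy_leK p f n
  · exact ECy_fixK hσ hx
  · have h1 : x ∈ KI p f := by
      rw [← InfiniteGalois.fixedField_fixingSubgroup (KI p f), IntermediateField.mem_fixedField_iff]
      intro σ hσ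
      refine hx σ fun z hz => ?_
      exact (IntermediateField.mem_fixingSubgroup_iff _ _).1 hσ z
        (IntermediateField.subset_adjoin ℚ _ hz)
    obtain ⟨T, hT, hxT⟩ := IntermediateField.exists_finset_of_mem_adjoin h1
    have h2 : ∀ z : Om, ∃ n : ℕ, z ∈ T → z ^ (f * p ^ n) = 1 := by
      intro z
      by_cases hz : z ∈ T
      · obtain ⟨n, hn⟩ := hT hz
        exact ⟨n, fun _ => hn⟩
      · exact ⟨0, fun h => absurd h hz⟩
    choose n hn using h2
    refine ⟨T.sup n, IntermediateField.adjoin_le_iff.2 (fun z hz => ?_) hxT⟩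
    refine IntermediateField.subset_adjoin ℚ _ ?_
    refine ECy_pow (Nat.mul_dvd_mul_left f (pow_dvd_pow p ?_)) (hn z hz)
    exact (Finset.le_sup (f := n) hz).trans (Nat.le_succ _)

end Pool.Agent.FW
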