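import Pool.Agent.Lib.FW.SpecE

/-! FW, part E, `S_EJ`: complex conjugation on `Om`, Kronecker's theorem for `KI p f`. -/

open scoped Pointwise NumberField WithZero

open IsDedekindDomain

noncomputable section

namespace Pool.Agent.FW

open Pool.Agent.MuZ

private theorem EJ_ex : ∃ J : Gal(Om/ℚ), IsCC J := by
  let φ : Om →ₐ[ℚ] ℂ := IsAlgClosed.lift
  letI : Algebra Om ℂ := φ.toRingHom.toAlgebra
  haveI : IsScalarTower ℚ Om ℂ := IsScalarTower.of_algebraMap_eq fun x => (φ.commutes x).symm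
  let χ : ℂ ≃ₐ[ℚ] ℂ := Complex.conjAe.restrictScalars ℚ
  exact ⟨χ.restrictNormal Om, φ.toRingHom, fun x => χ.restrictNormal_commutes Om x⟩

private theorem EJ_root (ψ : Om →+* ℂ) (N : ℕ) (z : Om) (hN : 0 < N) (hz : z ^ N = 1) :
    (starRingEnd ℂ) (ψ z) = ψ z⁻¹ := by
  have h1 : (ψ z) ^ N = 1 := by rw [← map_pow, hz, map_one]
  have h2 : ‖ψ z‖ = 1 := Complex.norm_eq_one_of_pow_eq_one h1 hN.ne'
  rw [map_inv₀, Complex.inv_eq_conj h2]

private theorem EJ_J (J : Gal(Om/ℚ)) (hJ : IsCC J) (N : ℕ) (z : Om) (hN : 0 < N)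
    (hz : z ^ N = 1) : J z = z⁻¹ := by
  obtain ⟨φ, hφ⟩ := hJ
  apply φ.injective
  rw [hφ, EJ_root φ N z hN hz]

private theorem EJ_sq (J : Gal(Om/ℚ)) (hJ : IsCC J) : J * J = 1 := by
  obtain ⟨φ, hφ⟩ := hJ
  ext x
  apply φ.injective
  rw [AlgEquiv.mul_apply, hφ, hφ, starRingEnd_self_apply, AlgEquiv.one_apply]

private theorem EJ_KI (J : Gal(Om/ℚ)) (hJ : IsCC J) (p f : ℕ) (hp : 0 < p) (hf : 0 < f)
    (ψ : Om →+* ℂ) (x : Om) (hx : x ∈ KI p f) : ψ (J x) = (starRingEnd ℂ) (ψ x) := by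
  refine IntermediateField.adjoin_induction (F := ℚ) (s := {z : Om | IsRt p f z})
    (p := fun x _ => ψ (J x) = (starRingEnd ℂ) (ψ x)) ?_ ?_ ?_ ?_ ?_ hx
  · rintro z ⟨n, hn⟩
    have h0 : 0 < f * p ^ n := Nat.mul_pos hf (Nat.pow_pos hp)
    change ψ (J z) = (starRingEnd ℂ) (ψ z)
    rw [EJ_J J hJ _ z h0 hn, EJ_root ψ _ z h0 hn]
  · intro r
    change ψ (J (algebraMap ℚ Om r)) = (starRingEnd ℂ) (ψ (algebraMap ℚ Om r))
    rw [J.commutes, eq_ratCast, map_ratCast, map_ratCast]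
  · intro a b _ _ ha hb
    change ψ (J (a + b)) = (starRingEnd ℂ) (ψ (a + b))
    rw [map_add, map_add, ha, hb, map_add, map_add]
  · intro a _ ha
    change ψ (J a⁻¹) = (starRingEnd ℂ) (ψ a⁻¹)
    rw [map_inv₀, map_inv₀, ha, map_inv₀, map_inv₀]
  · intro a b _ _ ha hb
    change ψ (J (a * b)) = (starRingEnd ℂ) (ψ (a * b))
    rw [map_mul, map_mul, ha, hb, map_mul, map_mul]

private theorem EJ_norm (J : Gal(Om/ℚ)) (hJ : IsCC J) (p f : ℕ) (hp : 0 < p) (hf : 0 < f)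
    (ψ : Om →+* ℂ) (x : Om) (hx : x ∈ KI p f) (h : x * J x = 1) : ‖ψ x‖ = 1 := by
  have h1 : ψ x * (starRingEnd ℂ) (ψ x) = 1 := by
    rw [← EJ_KI J hJ p f hp hf ψ x hx, ← map_mul, h, map_one]
  rw [Complex.mul_conj] at h1
  have h2 : Complex.normSq (ψ x) = 1 := by exact_mod_cast h1
  rw [Complex.normSq_eq_norm_sq] at h2
  have h3 : 0 ≤ ‖ψ x‖ := norm_nonneg _
  nlinarith

private theorem EJ_kro (x : Om) (hx : IsIntegral ℤ x) (h : ∀ ψ : Om →+* ℂ, ‖ψ x‖ = 1) :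
    ∃ N : ℕ, 0 < N ∧ x ^ N = 1 := by
  have hxQ : IsIntegral ℚ x := hx.tower_top
  haveI : FiniteDimensional ℚ (IntermediateField.adjoin ℚ {x}) :=
    IntermediateField.adjoin.finiteDimensional hxQ
  haveI : NumberField (IntermediateField.adjoin ℚ {x}) :=
    { to_charZero := inferInstance
      to_finiteDimensional := by
        have := IntermediateField.adjoin.finiteDimensional hxQ
        exact this }
  let y : IntermediateField.adjoin ℚ {x} :=
    ⟨x, IntermediateField.mem_adjoin_simple_self ℚ x⟩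
  have hy : IsIntegral ℤ y := by
    have h1 : IsIntegral ℤ (algebraMap (IntermediateField.adjoin ℚ {x}) Om y) := hx
    exact (isIntegral_algebraMap_iff (algebraMap (IntermediateField.adjoin ℚ {x}) Om).injective).1
      h1
  obtain ⟨n, hn, h2⟩ := NumberField.Embeddings.pow_eq_one_of_norm_eq_one
    (IntermediateField.adjoin ℚ {x}) ℂ hy (fun φ => by
      letI : Algebra (IntermediateField.adjoin ℚ {x}) ℂ := φ.toAlgebra
      let ψ : Om →ₐ[IntermediateField.adjoin ℚ {x}] ℂ := IsAlgClosed.lift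
      have h3 : ψ (algebraMap (IntermediateField.adjoin ℚ {x}) Om y) = φ y := ψ.commutes y
      rw [← h3]
      exact h ψ.toRingHom)
  exact ⟨n, hn, congrArg Subtype.val h2⟩

theorem tEJ : S_EJ := by
  refine ⟨EJ_ex, fun J hJ => ⟨EJ_sq J hJ, EJ_J J hJ, fun p f hp hf x hx hi h => ?_⟩⟩
  exact EJ_kro x hi fun ψ => EJ_norm J hJ p f hp hf ψ x hx h

end Pool.Agent.FW
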