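import Pool.Agent.Lib.FW.SpecE

/-!
# Assembly of part E: the Stickelberger elements annihilate the characters
-/

open scoped Pointwise NumberField

noncomputable section

namespace Pool.Agent.FW

open Pool.Agent.MuZ

private theorem EAsm_conj_MM {p f : ℕ} (σ : Gal(Om/ℚ)) {τ : Gal(Om/ℚ)} (h : τ ∈ MM p f) :
    σ * τ * σ⁻¹ ∈ MM p f := by
  intro z hz
  rw [AlgEquiv.mul_apply, AlgEquiv.mul_apply, h _ (hz.map σ⁻¹), ← AlgEquiv.mul_apply,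
    mul_inv_cancel, AlgEquiv.one_apply]

private theorem EAsm_conj_UU {p f : ℕ} (σ : Gal(Om/ℚ)) {τ : Gal(Om/ℚ)} (h : τ ∈ UU p f) :
    σ * τ * σ⁻¹ ∈ UU p f := by
  rcases h with h | h
  · exact Or.inl (EAsm_conj_MM σ h)
  · refine Or.inr fun z hz => ?_
    rw [AlgEquiv.mul_apply, AlgEquiv.mul_apply, h _ (hz.map σ⁻¹), map_inv₀,
      ← AlgEquiv.mul_apply, mul_inv_cancel, AlgEquiv.one_apply]

private theorem EAsm_IsId_mono {K L : IntermediateField ℚ Om} (h : K ≤ L) {b : Om}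
    (hb : IsId K b) : IsId L b := by
  obtain ⟨h0, s, hs, he⟩ := hb
  exact ⟨h0, s, fun x hx => h (hs x hx), he⟩

private theorem EAsm_fam {p f : ℕ} [Fact p.Prime] (hp2 : p ≠ 2) {Ls : Set (Subgroup Gal(Om/ℚ))}
    {g : Gal(Om/ℚ) → ZMod p} (hg : g ∈ VV p Ls (UU p f)) {J : Gal(Om/ℚ)} (hJ : J ∈ UU p f)
    (hJ2 : J * J = 1) (σ : Gal(Om/ℚ)) : g (σ * J * σ⁻¹) = 0 := by
  have hU := EAsm_conj_UU σ hJ
  have h1 : g ((σ * J * σ⁻¹) * (σ * J * σ⁻¹)) = g (σ * J * σ⁻¹) + g (σ * J * σ⁻¹) :=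
    hg.2.1 _ hU _ hU
  have h2 : (σ * J * σ⁻¹) * (σ * J * σ⁻¹) = 1 := by
    have : (σ * J * σ⁻¹) * (σ * J * σ⁻¹) = σ * (J * J) * σ⁻¹ := by group
    rw [this, hJ2, mul_one, mul_inv_cancel]
  have h3 : g 1 = 0 := by
    have := hg.2.1 1 (Subgroup.one_mem _) 1 (Subgroup.one_mem _)
    rw [mul_one] at this
    simpa using this
  rw [h2, h3, ← two_mul] at h1
  have h4 : (2 : ZMod p) ≠ 0 := by
    intro h
    have h5 : ((2 : ℕ) : ZMod p) = 0 := by exact_mod_cast h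
    rw [ZMod.natCast_eq_zero_iff] at h5
    exact hp2 ((Nat.prime_dvd_prime_iff_eq (Fact.out : p.Prime) Nat.prime_two).1 h5)
  rcases mul_eq_zero.1 h1.symm with h | h
  · exact absurd h h4
  · exact h

theorem tEAsm (h1 : S_ECy) (h2 : S_EJ) (h3 : S_EGen) (h4 : S_EId) (h5 : S_EIn) (h6 : S_ESt)
    (h7 : S_EOdd) : S_ST → S_SV := by
  intro hST p f _ hp2 hf hpf g hg
  obtain ⟨-, c2, -, c4, -, -, c7, c8⟩ := h1
  obtain ⟨⟨J, hJ⟩, hJJ⟩ := h2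
  obtain ⟨hJ2, hJz, -⟩ := hJJ J hJ
  have hpp : p.Prime := Fact.out
  have hJinv : ∀ z : Om, IsRt p f z → J z = z⁻¹ := by
    rintro z ⟨n, hz⟩
    exact hJz _ z (Nat.mul_pos hf (Nat.pow_pos hpp.pos)) hz
  have hJU : J ∈ UU p f := Or.inr hJinv
  have hne : NeZero p := ⟨hpp.ne_zero⟩
  have hne' : NeZero ((p : ℕ) : Om) := ⟨Nat.cast_ne_zero.2 hpp.ne_zero⟩
  obtain ⟨ζ, hζ⟩ := HasEnoughRootsOfUnity.exists_primitiveRoot Om p
  obtain ⟨b, hb0, hb, hbJ⟩ := h3 p f hp2 hf (LocO p) g hg J hJ2 hJinv ζ hζ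
  have hbp : ∀ σ ∈ MM p f, σ (b ^ p) = b ^ p := by
    intro σ hσ
    rw [map_pow, hb σ hσ, mul_pow, ← pow_mul, mul_comm (g σ).val p, pow_mul, hζ.pow_eq_one,
      one_pow, one_mul]
  obtain ⟨n1, hn1⟩ := c8 p f (b ^ p) hbp
  have hId : IsId (Cy (f * p ^ (n1 + 2))) b := by
    refine h4 p f hf hpf n1 b hb0 hn1 ?_
    intro P hP hP0 hpP σ hσ hσf
    have hσM : σ ∈ MM p f := by
      refine h5 p f hpp hf hpf P hP hpP σ hσ fun z hz => ?_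
      refine (c2 _ σ).1 hσf z ?_
      rw [pow_mul, hz, one_pow]
    have hgσ : g σ = 0 :=
      hg.2.2.2 (P.inertia Gal(Om/ℚ)) ⟨P, hP, hP0, hpP, rfl⟩ σ hσ (MM_le_UU p f hσM)
    rw [hb σ hσM, hgσ, ZMod.val_zero, pow_zero, one_mul]
  refine ⟨n1 + 1, fun n hn c hc2 hcm σ hσ => ?_⟩
  set m := f * p ^ (n + 1) with hm
  have hbm : b ^ p ∈ Cy m := by
    refine c4 _ _ ?_ hn1
    exact Nat.mul_dvd_mul_left f (pow_dvd_pow p (by omega))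
  have hIdm : IsId (Cy m) b := by
    refine EAsm_IsId_mono (c4 _ _ ?_) hId
    exact Nat.mul_dvd_mul_left f (pow_dvd_pow p (by omega))
  have hPr := hST m c hc2 hcm σ hσ b hIdm
  have key : ∀ τ ∈ MM p f, ∑ a ∈ Un m, ((wt m c a : ℤ) : ZMod p) *
      ((a : ZMod p)⁻¹ * g (σ a * τ * (σ a)⁻¹)) = 0 := by
    intro τ hτ
    have e1 := h6 p f hp2 hf g J hJ ζ b hζ hb0 hb hbJ n hbm c σ hσ hPr τ hτ
    have e2 := h7 p f hp2 hf (LocO p) g hg J hJinv ζ b hζ hb0 hb n hbm σ hσ τ hτ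
    have e3 : ∑ a ∈ Un m, ((wt m c a : ℤ) : ZMod p) *
        ((a : ZMod p)⁻¹ * g (σ a * τ * (σ a)⁻¹)) =
        2 * ∑ a ∈ Un m, ((c * a / m : ℕ) : ZMod p) *
          ((a : ZMod p)⁻¹ * g (σ a * τ * (σ a)⁻¹)) -
        ((c : ZMod p) - 1) * ∑ a ∈ Un m, (a : ZMod p)⁻¹ * g (σ a * τ * (σ a)⁻¹) := by
      rw [Finset.mul_sum, Finset.mul_sum, ← Finset.sum_sub_distrib]
      refine Finset.sum_congr rfl fun a _ => ?_
      simp only [wt, Int.cast_sub, Int.cast_mul, Int.cast_natCast, Int.cast_one, Int.cast_ofNat]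
      ring
    rw [e3]
    rw [← hm] at e1 e2
    rw [e1, e2, mul_zero, mul_zero, sub_zero]
  intro τ hτ
  rcases hτ with hτ | hτ
  · exact key τ hτ
  · have hJi : J⁻¹ = J := inv_eq_of_mul_eq_one_right hJ2
    have hμ : τ * J⁻¹ ∈ MM p f := by
      intro z hz
      rw [AlgEquiv.mul_apply, hJi, hJinv z hz, hτ _ hz.inv, inv_inv]
    rw [← key (τ * J⁻¹) hμ]
    refine Finset.sum_congr rfl fun a _ => ?_
    have e1 : σ a * τ * (σ a)⁻¹ = (σ a * (τ * J⁻¹) * (σ a)⁻¹) * (σ a * J * (σ a)⁻¹) := by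
      group
    rw [e1, hg.2.1 _ (MM_le_UU p f (EAsm_conj_MM (σ a) hμ)) _ (EAsm_conj_UU (σ a) hJU),
      EAsm_fam hp2 hg hJU hJ2 (σ a), add_zero]

end Pool.Agent.FW
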