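import Pool.Agent.Lib.FW.SpecE

/-! `b` generates an ideal of `K_(n+1)`. -/

set_option autoImplicit false

open scoped Pointwise NumberField WithZero

open IsDedekindDomain

noncomputable section

namespace Pool.Agent.FW

open Pool.Agent.MuZ

/-- The ring of integers of a subfield in the ring of all algebraic integers. -/
private def EId_j (K : IntermediateField ℚ Om) : 𝓞 K →+* ZZ where
  toFun y := ⟨((y : K) : Om), by
    have h : IsIntegral ℤ (y : K) := y.2
    exact h.map (K.val.restrictScalars ℤ)⟩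
  map_one' := rfl
  map_mul' _ _ := rfl
  map_zero' := rfl
  map_add' _ _ := rfl

private theorem EId_j_coe (K : IntermediateField ℚ Om) (y : 𝓞 K) :
    ((EId_j K y : ZZ) : Om) = ((y : K) : Om) := rfl

private theorem EId_j_inj (K : IntermediateField ℚ Om) : Function.Injective (EId_j K) := by
  intro x y h
  have h1 : ((x : K) : Om) = ((y : K) : Om) := congrArg (fun z : ZZ => (z : Om)) h
  exact Subtype.ext (Subtype.ext h1)

private theorem EId_j_int (K : IntermediateField ℚ Om) : (EId_j K).IsIntegral := by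
  intro x
  have h : IsIntegral ℤ x := by
    obtain ⟨q, hq, h0⟩ := x.2
    refine ⟨q, hq, ?_⟩
    apply Subtype.ext
    have h1 := Polynomial.hom_eval₂ q (algebraMap ℤ ZZ) (algebraMap ZZ Om) x
    change algebraMap ZZ Om _ = 0
    rw [h1]
    exact h0
  obtain ⟨q, hq, h0⟩ := h
  refine ⟨q.map (algebraMap ℤ (𝓞 K)), hq.map _, ?_⟩
  rw [Polynomial.eval₂_map]
  rw [← h0]
  congr 1

/-- A prime of `ZZ` above a prime of a subfield. -/
private theorem EId_above (K : IntermediateField ℚ Om) [NumberField K]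
    (v : HeightOneSpectrum (𝓞 K)) :
    ∃ P : Ideal ZZ, P.IsPrime ∧ P ≠ ⊥ ∧ P.comap (EId_j K) = v.asIdeal := by
  let _ : Algebra (𝓞 K) ZZ := (EId_j K).toAlgebra
  have : Algebra.IsIntegral (𝓞 K) ZZ := ⟨EId_j_int K⟩
  have := v.isMaximal
  obtain ⟨Q, hQ, hQ1⟩ := Ideal.exists_ideal_over_maximal_of_isIntegral (S := ZZ) v.asIdeal (by
    intro x hx
    have h1 : EId_j K x = 0 := hx
    have h2 : x = 0 := EId_j_inj K (by rw [h1, map_zero])
    rw [h2]
    exact zero_mem _)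
  refine ⟨Q, hQ.isPrime, ?_, hQ1⟩
  rintro rfl
  refine v.ne_bot ?_
  rw [← hQ1, eq_bot_iff]
  intro x hx
  have h1 : EId_j K x = 0 := hx
  exact EId_j_inj K (by rw [h1, map_zero])

theorem tEId (h1 : S_ECy) (h2 : S_EPw) (h3 : S_EUnO) (h4 : S_ERp) (h5 : S_EOm) : S_EId := by
  intro p f _ hf hpf n b hb hbp hP
  have hp : p.Prime := Fact.out
  have : NeZero f := ⟨hf.ne'⟩
  obtain ⟨c1, -, -, c4, -⟩ := h1
  have hm : 0 < f * p ^ (n + 1) := Nat.mul_pos hf (pow_pos hp.pos _)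
  have hm' : 0 < f * p ^ (n + 2) := Nat.mul_pos hf (pow_pos hp.pos _)
  have hle : Cy (f * p ^ (n + 1)) ≤ Cy (f * p ^ (n + 2)) :=
    c4 _ _ (Nat.mul_dvd_mul_left f (pow_dvd_pow p (Nat.le_succ _)))
  obtain ⟨i1, i2⟩ := c1 _ hm
  obtain ⟨i3, i4⟩ := c1 _ hm'
  have : NumberField (Cy (f * p ^ (n + 1))) := ⟨⟩
  have : NumberField (Cy (f * p ^ (n + 2))) := ⟨⟩
  have hb' : b ^ p ∈ Cy (f * p ^ (n + 2)) := hle hbp
  have key : ∀ v : HeightOneSpectrum (𝓞 (Cy (f * p ^ (n + 2)))),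
      ∃ γ : ℤᵐ⁰, v.valuation (Cy (f * p ^ (n + 2))) ⟨b ^ p, hb'⟩ = γ ^ p := by
    intro v
    by_cases hv : (p : 𝓞 (Cy (f * p ^ (n + 2)))) ∈ v.asIdeal
    · let _ : Algebra (Cy (f * p ^ (n + 1))) (Cy (f * p ^ (n + 2))) :=
        (IntermediateField.inclusion hle).toRingHom.toAlgebra
      exact h4 p f n hpf (Cy (f * p ^ (n + 1))) (Cy (f * p ^ (n + 2))) ⟨b ^ p, hbp⟩ v hv
    · obtain ⟨P, hP1, hP2, hP3⟩ := EId_above _ v
      obtain ⟨ζ, hζ⟩ := HasEnoughRootsOfUnity.exists_primitiveRoot Om p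
      have hζm : ζ ∈ Cy (f * p ^ (n + 2)) := by
        refine IntermediateField.subset_adjoin _ _ ?_
        change ζ ^ (f * p ^ (n + 2)) = 1
        rw [pow_succ, ← mul_assoc, mul_comm, pow_mul, hζ.pow_eq_one, one_pow]
      have hpP : (p : ZZ) ∉ P := by
        intro h
        apply hv
        rw [← hP3, Ideal.mem_comap, map_natCast]
        exact h
      refine h3 _ p ζ b hζ hζm hb' hb P hP1 (hP P hP1 hP2 hpP) v ?_
      intro y hy
      rw [← hP3, Ideal.mem_comap] at hy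
      exact ⟨_, hy, rfl⟩
  have hne : (⟨b ^ p, hb'⟩ : Cy (f * p ^ (n + 2))) ≠ 0 := by
    intro h
    exact pow_ne_zero p hb (congrArg Subtype.val h)
  obtain ⟨s, hs⟩ := h2 _ p hp.pos _ hne key
  exact h5 _ p hp.pos b hb _ s rfl hs

end Pool.Agent.FW
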