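import Pool.Agent.Lib.FW.SpecE

/-!
# S_EIn: inertia elements outside `p` fix `K_∞` if they fix the `f`-th roots of unity
-/

open scoped Pointwise NumberField WithZero

open IsDedekindDomain

noncomputable section

namespace Pool.Agent.FW

open Pool.Agent.MuZ

/-- a root of unity of `p`-power order which is `1` modulo `P` is `1` -/
private theorem EIn_root_one {R : Type*} [CommRing R] [IsDomain R] {P : Ideal R} (hP : P.IsPrime)
    {p : ℕ} (hp : (p : R) ∉ P) {n : ℕ} {y : R} (h1 : y ^ p ^ n = 1) (h2 : y - 1 ∈ P) :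
    y = 1 := by
  by_contra hne
  have e1 : (∑ i ∈ Finset.range (p ^ n), y ^ i) * (y - 1) = 0 := by
    rw [geom_sum_mul, h1, sub_self]
  have e2 : (∑ i ∈ Finset.range (p ^ n), y ^ i) = 0 := by
    rcases mul_eq_zero.1 e1 with h | h
    · exact h
    · exact absurd (sub_eq_zero.1 h) hne
  have e3 : (∑ i ∈ Finset.range (p ^ n), (y ^ i - 1)) ∈ P := by
    refine Ideal.sum_mem P (fun i _ => ?_)
    have hd : y - 1 ∣ y ^ i - 1 := by
      have := sub_dvd_pow_sub_pow y 1 i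
      rwa [one_pow] at this
    exact Ideal.mem_of_dvd P hd h2
  rw [Finset.sum_sub_distrib, e2, Finset.sum_const, Finset.card_range, zero_sub,
    Ideal.neg_mem_iff, nsmul_eq_mul, mul_one] at e3
  have e4 : ((p : R)) ^ n ∈ P := by
    have : ((p ^ n : ℕ) : R) = (p : R) ^ n := by push_cast; rfl
    rwa [this] at e3
  exact hp (hP.mem_of_pow_mem n e4)

/-- inertia elements outside `p` fix the roots of unity of `p`-power order -/
private theorem EIn_ppow {p : ℕ} (hpp : p.Prime) {P : Ideal ZZ} (hP : P.IsPrime)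
    (hp : (p : ZZ) ∉ P) {σ : Gal(Om/ℚ)} (hσ : σ ∈ P.inertia Gal(Om/ℚ)) (n : ℕ) (z : Om)
    (hz : z ^ p ^ n = 1) : σ z = z := by
  have hpos : 0 < p ^ n := Nat.pow_pos hpp.pos
  have hint : IsIntegral ℤ z := by
    refine IsIntegral.of_pow hpos ?_
    rw [hz]
    exact isIntegral_one
  set x : ZZ := ⟨z, hint⟩ with hx
  have hx1 : x ^ p ^ n = 1 := Subtype.ext hz
  have hxx : x * x ^ (p ^ n - 1) = 1 := by
    rw [← pow_succ', Nat.sub_add_cancel hpos, hx1]
  have hs : σ • x - x ∈ P := hσ x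
  have hs1 : (σ • x) ^ p ^ n = 1 := by
    rw [← smul_pow', hx1, smul_one]
  have h1 : (σ • x * x ^ (p ^ n - 1)) ^ p ^ n = 1 := by
    rw [mul_pow, hs1, one_mul, ← pow_mul, mul_comm (p ^ n - 1), pow_mul, hx1, one_pow]
  have h2 : σ • x * x ^ (p ^ n - 1) - 1 ∈ P := by
    have e : σ • x * x ^ (p ^ n - 1) - 1 = (σ • x - x) * x ^ (p ^ n - 1) := by
      rw [sub_mul, hxx]
    rw [e]
    exact P.mul_mem_right _ hs
  have h3 : σ • x * x ^ (p ^ n - 1) = 1 := EIn_root_one hP hp h1 h2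
  have h4 : σ • x = x := by
    calc σ • x = σ • x * (x * x ^ (p ^ n - 1)) := by rw [hxx, mul_one]
      _ = (σ • x * x ^ (p ^ n - 1)) * x := by ring
      _ = x := by rw [h3, one_mul]
  have h5 := congrArg Subtype.val h4
  exact h5

theorem tEIn : S_EIn := by
  intro p f hpp hf hpf P hP hp σ hσ hfix z hz
  obtain ⟨n, hn⟩ := hz
  have hz0 : z ≠ 0 := by
    rintro rfl
    rw [zero_pow (Nat.mul_pos hf (Nat.pow_pos hpp.pos)).ne'] at hn
    exact zero_ne_one hn
  have hcop : IsCoprime (f : ℤ) ((p ^ n : ℕ) : ℤ) := by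
    rw [Nat.isCoprime_iff_coprime]
    exact ((Nat.Prime.coprime_iff_not_dvd hpp).mpr hpf).symm.pow_right n
  obtain ⟨u, v, huv⟩ := hcop
  have h1 : σ (z ^ f) = z ^ f := by
    refine EIn_ppow hpp hP hp hσ n (z ^ f) ?_
    rw [← pow_mul]
    exact hn
  have h2 : σ (z ^ p ^ n) = z ^ p ^ n := by
    refine hfix (z ^ p ^ n) ?_
    rw [← pow_mul, mul_comm]
    exact hn
  have h3 : z = (z ^ f) ^ u * (z ^ p ^ n) ^ v := by
    have e1 : (z ^ f) ^ u = z ^ ((f : ℤ) * u) := by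
      rw [zpow_mul, zpow_natCast]
    have e2 : (z ^ p ^ n) ^ v = z ^ (((p ^ n : ℕ) : ℤ) * v) := by
      rw [zpow_mul, zpow_natCast]
    rw [e1, e2, ← zpow_add₀ hz0]
    rw [mul_comm (f : ℤ) u, mul_comm ((p ^ n : ℕ) : ℤ) v, huv, zpow_one]
  rw [h3, map_mul, map_zpow₀, map_zpow₀, h1, h2]

end Pool.Agent.FW
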