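import Pool.Agent.Lib.FW.SpecE

/-!
# FW, part E: the square of `B` is in `K_∞` (helper73)
-/

set_option autoImplicit false

open scoped Pointwise NumberField WithZero

open IsDedekindDomain

noncomputable section

namespace Pool.Agent.FW

open Pool.Agent.MuZ

private theorem EKr_fix {p f : ℕ} (hp : p.Prime) {τ : Gal(Om/ℚ)} (hτ : τ ∈ MM p f) {w : Om}
    (hw : w ≠ 0) {N : ℕ} (hN : 0 < N) (h1 : (w ^ p) ^ N = 1) (h2 : τ (w ^ p) = w ^ p) :
    τ w = w := by
  obtain ⟨s, N', hN', hs⟩ :=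
    Nat.exists_eq_pow_mul_and_not_dvd (Nat.mul_pos hp.pos hN).ne' p hp.ne_one
  have h3 : w ^ (p ^ s * N') = 1 := by
    rw [← hs, pow_mul]
    exact h1
  have h4 : τ (w ^ N') = w ^ N' := hτ _ ⟨s, by
    rw [← pow_mul, show N' * (f * p ^ s) = (p ^ s * N') * f by ring, pow_mul, h3, one_pow]⟩
  have h5 : (τ w / w) ^ N' = 1 := by
    rw [div_pow, ← map_pow, h4, div_self (pow_ne_zero _ hw)]
  have h6 : (τ w / w) ^ p = 1 := by
    rw [div_pow, ← map_pow, h2, div_self (pow_ne_zero _ hw)]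
  have h7 : Nat.gcd N' p = 1 := ((Nat.Prime.coprime_iff_not_dvd hp).2 hN').symm
  have h8 := pow_gcd_eq_one.2 ⟨h5, h6⟩
  rw [h7, pow_one] at h8
  exact (div_eq_one_iff_eq hw).1 h8

theorem tEKr (h1 : S_ECy) (h2 : S_EJ) : S_EKr := by
  intro p f _ hf J hJ B k e hk hk0 he hB hBp hBJ τ hτ
  obtain ⟨-, -, -, -, c5, -, c7, -⟩ := h1
  obtain ⟨j1, -, j3⟩ := h2.2 J hJ
  have hp : p.Prime := Fact.out
  obtain ⟨he0, hei, hei'⟩ := he
  have JJ : ∀ x, J (J x) = x := fun x => by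
    rw [← AlgEquiv.mul_apply, j1, AlgEquiv.one_apply]
  have hJe : J e ≠ 0 := (map_ne_zero J).2 he0
  have hJk : J k ≠ 0 := (map_ne_zero J).2 hk0
  have hB0 : B ≠ 0 := by
    rw [hB]
    exact mul_ne_zero hk0 he0
  have hJB : J B ≠ 0 := (map_ne_zero J).2 hB0
  have hBe : B / J B = k / J k * (e / J e) := by
    rw [hB, map_mul, mul_div_mul_comm]
  have hwe : e / J e = B / J B * (J k / k) := by
    rw [hBe]
    field_simp
  have hv : (e / J e) ^ p ∈ KI p f := by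
    rw [hwe, mul_pow, div_pow, ← map_pow]
    exact mul_mem (div_mem hBp (c5 p f J _ hBp)) (pow_mem (div_mem (c5 p f J _ hk) hk) p)
  have hint : IsIntegral ℤ ((e / J e) ^ p) := by
    refine IsIntegral.pow ?_ p
    rw [div_eq_mul_inv, ← map_inv₀]
    exact hei.mul (map_isIntegral_int J hei')
  have hvv : (e / J e) ^ p * J ((e / J e) ^ p) = 1 := by
    rw [map_pow, ← mul_pow, map_div₀, JJ, div_mul_div_cancel₀ hJe, div_self he0, one_pow]
  obtain ⟨N, hN, hN1⟩ := j3 p f hp.pos hf _ hv hint hvv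
  have hw := EKr_fix hp hτ (div_ne_zero he0 hJe) hN hN1 (c7 p f _ hv τ hτ)
  have h3 : B ^ 2 = (B * J B) * ((k / J k) * (e / J e)) := by
    rw [← hBe]
    field_simp
  have h4 : τ (B * J B) = B * J B :=
    hτ _ ⟨1, by rw [pow_one, mul_comm f p, pow_mul, hBJ, one_pow]⟩
  rw [h3, map_mul τ (B * J B), map_mul τ (k / J k), h4, hw, c7 p f _ (div_mem hk (c5 p f J _ hk)) τ hτ]

end Pool.Agent.FW
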