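import Pool.Agent.Lib.FW.SpecE

/-!
# FW, part E: the odd part (helper73)
-/

set_option autoImplicit false

open scoped Pointwise NumberField WithZero

open IsDedekindDomain

noncomputable section

namespace Pool.Agent.FW

open Pool.Agent.MuZ

private theorem EOdd_norm {p f : ℕ} (ν : Gal(Om/ℚ)) {τ : Gal(Om/ℚ)} (hτ : τ ∈ MM p f) :
    ν * τ * ν⁻¹ ∈ MM p f := by
  intro z hz
  rw [AlgEquiv.mul_apply, AlgEquiv.mul_apply, hτ _ (hz.map ν⁻¹), ← AlgEquiv.mul_apply,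
    mul_inv_cancel, AlgEquiv.one_apply]

/-- (1): `g` is invariant under the conjugation with `ν`. -/
private theorem EOdd_one (h1 : S_ECy) {p f n : ℕ} [Fact p.Prime] {g : Gal(Om/ℚ) → ZMod p}
    {ζ b : Om} (hζ : IsPrimitiveRoot ζ p) (hb : b ≠ 0)
    (hg : ∀ σ ∈ MM p f, σ b = ζ ^ (g σ).val * b) (hbp : b ^ p ∈ Cy (f * p ^ (n + 1)))
    {ν : Gal(Om/ℚ)} (hν : ∀ z : Om, z ^ (f * p ^ (n + 1)) = 1 → ν z = z)
    {τ : Gal(Om/ℚ)} (hτ : τ ∈ MM p f) : g (ν * τ * ν⁻¹) = g τ := by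
  have hν' : ν (b ^ p) = b ^ p :=
    (IntermediateField.mem_fixingSubgroup_iff _ _).1 ((h1.2.1 _ ν).2 hν) _ hbp
  have hνb : ν b ≠ 0 := (map_ne_zero ν).2 hb
  have hω : (ν b / b) ^ p = 1 := by
    rw [div_pow, ← map_pow, hν', div_self (pow_ne_zero _ hb)]
  have hωb : ν b / b * b = ν b := div_mul_cancel₀ _ hb
  have hτ' := EOdd_norm ν hτ
  have hζm : ζ ^ (f * p ^ (n + 1)) = 1 := by
    rw [show f * p ^ (n + 1) = p * (f * p ^ n) by ring, pow_mul, hζ.pow_eq_one, one_pow]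
  have h2 : (ν * τ * ν⁻¹) (ν b) = ζ ^ (g τ).val * ν b := by
    rw [AlgEquiv.mul_apply, AlgEquiv.mul_apply, ← AlgEquiv.mul_apply ν⁻¹ ν, inv_mul_cancel,
      AlgEquiv.one_apply, hg τ hτ, map_mul, map_pow, hν ζ hζm]
  have h3 : (ν * τ * ν⁻¹) (ν b) = ζ ^ (g (ν * τ * ν⁻¹)).val * ν b := by
    rw [← hωb, map_mul, hg _ hτ', hτ' (ν b / b) ⟨1, by
      rw [pow_one, mul_comm f p, pow_mul, hω, one_pow]⟩]
    ring
  have h4 : ζ ^ (g (ν * τ * ν⁻¹)).val = ζ ^ (g τ).val := by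
    rw [h2] at h3
    exact (mul_right_cancel₀ hνb h3).symm
  exact ZMod.val_injective p (hζ.pow_inj (ZMod.val_lt _) (ZMod.val_lt _) h4)

/-- (2): `g` is invariant under the conjugation with `J`. -/
private theorem EOdd_two {p f : ℕ} {Ls : Set (Subgroup Gal(Om/ℚ))} {g : Gal(Om/ℚ) → ZMod p}
    (hg : g ∈ VV p Ls (UU p f)) {J τ : Gal(Om/ℚ)} (hJ : J ∈ UU p f) (hτ : τ ∈ UU p f) :
    g (J * τ * J⁻¹) = g τ := by
  have hadd := hg.2.1
  have h1 : g 1 = 0 := by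
    have h := hadd 1 (UU p f).one_mem 1 (UU p f).one_mem
    rw [one_mul] at h
    exact left_eq_add.1 h
  have h2 : g J + g J⁻¹ = 0 := by
    rw [← hadd J hJ J⁻¹ ((UU p f).inv_mem hJ), mul_inv_cancel, h1]
  rw [hadd (J * τ) ((UU p f).mul_mem hJ hτ) J⁻¹ ((UU p f).inv_mem hJ), hadd J hJ τ hτ]
  linear_combination h2

theorem tEOdd (h1 : S_ECy) : S_EOdd := by
  intro p f _ hp2 hf Ls g hg J hJ ζ b hζ hb hgb n hbp σ hσ τ hτ
  have hp : p.Prime := Fact.out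
  have hJU : J ∈ UU p f := Or.inr hJ
  have hpm : p ∣ f * p ^ (n + 1) := (dvd_pow_self p (Nat.succ_ne_zero n)).mul_left f
  have hm0 : 0 < f * p ^ (n + 1) := Nat.mul_pos hf (pow_pos hp.pos _)
  have hm1 : 1 < f * p ^ (n + 1) := hp.one_lt.trans_le (Nat.le_of_dvd hm0 hpm)
  have hpos : ∀ a ∈ Un (f * p ^ (n + 1)), 0 < a ∧ a < f * p ^ (n + 1) ∧
      a.Coprime (f * p ^ (n + 1)) := by
    intro a ha
    obtain ⟨ha1, ha2⟩ := Finset.mem_filter.1 ha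
    refine ⟨Nat.pos_of_ne_zero ?_, Finset.mem_range.1 ha1, ha2⟩
    rintro rfl
    rw [Nat.coprime_zero_left] at ha2
    exact hm1.ne' ha2
  have hinv : ∀ a ∈ Un (f * p ^ (n + 1)), f * p ^ (n + 1) - a ∈ Un (f * p ^ (n + 1)) := by
    intro a ha
    obtain ⟨ha1, ha2, ha3⟩ := hpos a ha
    exact Finset.mem_filter.2 ⟨Finset.mem_range.2 (Nat.sub_lt hm0 ha1),
      (Nat.coprime_self_sub_left ha2.le).2 ha3⟩
  have hconj : ∀ a ∈ Un (f * p ^ (n + 1)),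
      g (σ (f * p ^ (n + 1) - a) * τ * (σ (f * p ^ (n + 1) - a))⁻¹) = g (σ a * τ * (σ a)⁻¹) := by
    intro a ha
    obtain ⟨ha1, ha2, ha3⟩ := hpos a ha
    have h2 : ∀ z : Om, z ^ (f * p ^ (n + 1)) = 1 →
        σ (f * p ^ (n + 1) - a) z = J (σ a z) := by
      intro z hz
      rw [hσ _ (hinv a ha) z hz, hσ a ha z hz, hJ (z ^ a) ⟨n + 1, by
        rw [← pow_mul, mul_comm, pow_mul, hz, one_pow]⟩]
      refine eq_inv_of_mul_eq_one_left ?_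
      rw [← pow_add, Nat.sub_add_cancel ha2.le, hz]
    have h3 : ∀ z : Om, z ^ (f * p ^ (n + 1)) = 1 →
        (σ (f * p ^ (n + 1) - a) * (σ a)⁻¹ * J⁻¹) z = z := by
      intro z hz
      rw [AlgEquiv.mul_apply, AlgEquiv.mul_apply, h2 _ (by
        rw [← map_pow, ← map_pow, hz, map_one, map_one]), ← AlgEquiv.mul_apply (σ a) (σ a)⁻¹,
        mul_inv_cancel, AlgEquiv.one_apply, ← AlgEquiv.mul_apply J J⁻¹, mul_inv_cancel,
        AlgEquiv.one_apply]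
    have h4 : σ (f * p ^ (n + 1) - a) * τ * (σ (f * p ^ (n + 1) - a))⁻¹ =
        (σ (f * p ^ (n + 1) - a) * (σ a)⁻¹ * J⁻¹) * (J * (σ a * τ * (σ a)⁻¹) * J⁻¹) *
          (σ (f * p ^ (n + 1) - a) * (σ a)⁻¹ * J⁻¹)⁻¹ := by
      group
    have h5 := EOdd_norm (σ a) hτ
    rw [h4, EOdd_one h1 hζ hb hgb hbp h3 (EOdd_norm J h5), EOdd_two hg hJU (MM_le_UU p f h5)]
  have hS : ∑ a ∈ Un (f * p ^ (n + 1)), (a : ZMod p)⁻¹ * g (σ a * τ * (σ a)⁻¹) =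
      - ∑ a ∈ Un (f * p ^ (n + 1)), (a : ZMod p)⁻¹ * g (σ a * τ * (σ a)⁻¹) := by
    rw [← Finset.sum_neg_distrib]
    refine Finset.sum_nbij' (fun a => f * p ^ (n + 1) - a) (fun a => f * p ^ (n + 1) - a)
      hinv hinv ?_ ?_ ?_
    · intro a ha
      exact Nat.sub_sub_self (hpos a ha).2.1.le
    · intro a ha
      exact Nat.sub_sub_self (hpos a ha).2.1.le
    · intro a ha
      rw [hconj a ha, Nat.cast_sub (hpos a ha).2.1.le,
        (ZMod.natCast_eq_zero_iff (f * p ^ (n + 1)) p).2 hpm, zero_sub, inv_neg, neg_mul, neg_neg]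
  have h2 : (2 : ZMod p) ≠ 0 := by
    intro h
    have h3 : ((2 : ℕ) : ZMod p) = 0 := by exact_mod_cast h
    rw [ZMod.natCast_eq_zero_iff] at h3
    exact hp2 ((Nat.prime_dvd_prime_iff_eq hp Nat.prime_two).1 h3)
  have h3 : (2 : ZMod p) *
      ∑ a ∈ Un (f * p ^ (n + 1)), (a : ZMod p)⁻¹ * g (σ a * τ * (σ a)⁻¹) = 0 := by
    linear_combination hS
  exact (mul_eq_zero.1 h3).resolve_left h2

end Pool.Agent.FW
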