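import Pool.Agent.Lib.FW.SpecE

/-!
# S_EOm: from an ideal of `K` to `ZZ`
-/

open scoped Pointwise NumberField WithZero

open IsDedekindDomain

noncomputable section

namespace Pool.Agent.FW

open Pool.Agent.MuZ

/-- an integer of `K`, as an element of `ZZ` -/
private def EOm_zz (K : IntermediateField ℚ Om) (y : 𝓞 K) : ZZ :=
  ⟨((y : K) : Om), by
    have h : IsIntegral ℤ (y : K) := y.2
    exact h.map (IsScalarTower.toAlgHom ℤ K Om)⟩

private theorem EOm_zz_smul (K : IntermediateField ℚ Om) (y : 𝓞 K) (x : K) :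
    ((y • x : K) : Om) = EOm_zz K y • (x : Om) := rfl

private theorem EOm_span (K : IntermediateField ℚ Om) (s : Set K) (N : Submodule ZZ Om)
    (h : ∀ x ∈ s, (x : Om) ∈ N) : ∀ x ∈ Submodule.span (𝓞 K) s, (x : Om) ∈ N := by
  intro x hx
  induction hx using Submodule.span_induction with
  | mem x hx => exact h x hx
  | zero => exact N.zero_mem
  | add x y _ _ hx hy => exact N.add_mem hx hy
  | smul a x _ hx =>
    rw [EOm_zz_smul]
    exact N.smul_mem _ hx

private theorem EOm_pow (K : IntermediateField ℚ Om) (N : Submodule (𝓞 K) K)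
    (N' : Submodule ZZ Om) (h : ∀ x ∈ N, (x : Om) ∈ N') (k : ℕ) :
    ∀ x ∈ N ^ k, (x : Om) ∈ N' ^ k := by
  induction k with
  | zero =>
    intro x hx
    rw [pow_zero, Submodule.mem_one] at hx
    obtain ⟨y, rfl⟩ := hx
    rw [pow_zero, Submodule.mem_one]
    exact ⟨EOm_zz K y, rfl⟩
  | succ k ih =>
    intro x hx
    rw [pow_succ] at hx
    rw [pow_succ]
    induction hx using Submodule.mul_induction_on' with
    | mem_mul_mem m hm n hn =>
      exact Submodule.mul_mem_mul (ih m hm) (h n hn)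
    | add x _ y _ hx hy =>
      exact Submodule.add_mem _ hx hy

theorem tEOm : S_EOm := by
  intro K _ p hp b hb β s hβ hs
  classical
  refine ⟨hb, s.image (fun x : K => (x : Om)), ?_, ?_⟩
  · intro x hx
    obtain ⟨y, _, rfl⟩ := Finset.mem_image.mp hx
    exact y.2
  set M : Submodule ZZ Om :=
    Submodule.span ZZ ((s.image (fun x : K => (x : Om)) : Finset Om) : Set Om) with hM
  -- (A)
  have hA : M ≤ Submodule.span ZZ ({b} : Set Om) := by
    rw [hM, Submodule.span_le]
    intro t' ht'
    obtain ⟨t, ht, rfl⟩ := Finset.mem_image.mp (Finset.mem_coe.mp ht')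
    have h1 : t ^ p ∈ Submodule.span (𝓞 K) {β} := by
      rw [← hs]
      exact Submodule.pow_mem_pow _ (Submodule.subset_span (Finset.mem_coe.mpr ht)) p
    obtain ⟨y, hy⟩ := Submodule.mem_span_singleton.mp h1
    have h2 : (t : Om) ^ p = (EOm_zz K y : Om) * b ^ p := by
      have h3 : ((t ^ p : K) : Om) = EOm_zz K y • (β : Om) := by
        rw [← EOm_zz_smul, hy]
      rw [hβ] at h3
      exact h3
    have h4 : ((t : Om) / b) ^ p = (EOm_zz K y : Om) := by
      rw [div_pow, h2, mul_div_cancel_right₀ _ (pow_ne_zero p hb)]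
    have h5 : IsIntegral ℤ ((t : Om) / b) := by
      refine IsIntegral.of_pow hp ?_
      rw [h4]
      exact (EOm_zz K y).2
    rw [SetLike.mem_coe, Submodule.mem_span_singleton]
    refine ⟨⟨(t : Om) / b, h5⟩, ?_⟩
    rw [Subalgebra.smul_def, smul_eq_mul]
    exact div_mul_cancel₀ _ hb
  -- (B)
  have hB : b ^ p ∈ M ^ p := by
    rw [← hβ]
    refine EOm_pow K (Submodule.span (𝓞 K) (s : Set K)) M ?_ p β ?_
    · refine EOm_span K s M ?_
      intro x hx
      exact Submodule.subset_span (Finset.mem_coe.mpr (Finset.mem_image_of_mem _ hx))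
    · rw [hs]
      exact Submodule.mem_span_singleton_self β
  have hbb : Submodule.span ZZ ({b} : Set Om) * Submodule.span ZZ ({b⁻¹} : Set Om) = 1 := by
    rw [Submodule.span_mul_span, Set.singleton_mul_singleton, mul_inv_cancel₀ hb,
      Submodule.one_eq_span]
  set I : Submodule ZZ Om := Submodule.span ZZ ({b⁻¹} : Set Om) * M with hI
  have hI1 : I ≤ 1 := by
    rw [hI, ← hbb, mul_comm (Submodule.span ZZ ({b} : Set Om))]
    exact mul_le_mul' le_rfl hA
  have hIp : (1 : Om) ∈ I ^ p := by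
    have h1 : b⁻¹ ^ p * b ^ p ∈ I ^ p := by
      rw [hI, mul_pow]
      exact Submodule.mul_mem_mul
        (Submodule.pow_mem_pow _ (Submodule.mem_span_singleton_self _) p) hB
    rw [← mul_pow, inv_mul_cancel₀ hb, one_pow] at h1
    exact h1
  have hI2 : (1 : Om) ∈ I := by
    obtain ⟨k, rfl⟩ : ∃ k, p = k + 1 := ⟨p - 1, by omega⟩
    have h1 : I ^ (k + 1) ≤ I := by
      rw [pow_succ]
      calc I ^ k * I ≤ 1 ^ k * I := mul_le_mul' (pow_le_pow_left' hI1 k) le_rfl
        _ = I := by rw [one_pow, one_mul]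
    exact h1 hIp
  have hbM : b ∈ M := by
    have h1 : b * 1 ∈ Submodule.span ZZ ({b} : Set Om) * I :=
      Submodule.mul_mem_mul (Submodule.mem_span_singleton_self _) hI2
    rw [mul_one, hI, ← mul_assoc, hbb, one_mul] at h1
    exact h1
  refine le_antisymm hA ?_
  rw [Submodule.span_singleton_le_iff_mem]
  exact hbM

end Pool.Agent.FW
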