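import Pool.Agent.Lib.FW.SpecE

/-!
# Part E, module Pw: `p`-th powers of ideals
-/

open scoped Pointwise NumberField WithZero nonZeroDivisors

open IsDedekindDomain

noncomputable section

namespace Pool.Agent.FW

open Pool.Agent.MuZ

private theorem EPw_val (K : Type) [Field K] [NumberField K] (v : HeightOneSpectrum (𝓞 K))
    (β : K) (hβ : β ≠ 0) :
    v.valuation K β =
      WithZero.exp (-FractionalIdeal.count K v (FractionalIdeal.spanSingleton (𝓞 K)⁰ β)) := by
  classical
  obtain ⟨x, y, hy, rfl⟩ := IsFractionRing.div_surjective (A := 𝓞 K) β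
  have hy0 : y ≠ 0 := nonZeroDivisors.ne_zero hy
  have hx0 : x ≠ 0 := by
    rintro rfl
    apply hβ
    rw [map_zero, zero_div]
  have hI : FractionalIdeal.spanSingleton (𝓞 K)⁰ (algebraMap (𝓞 K) K x / algebraMap (𝓞 K) K y) ≠
      0 := by
    rw [Ne, FractionalIdeal.spanSingleton_eq_zero_iff]
    exact hβ
  have he : FractionalIdeal.spanSingleton (𝓞 K)⁰
      (algebraMap (𝓞 K) K x / algebraMap (𝓞 K) K y) =
      FractionalIdeal.spanSingleton (𝓞 K)⁰ (algebraMap (𝓞 K) K y)⁻¹ *
        ((Ideal.span {x} : Ideal (𝓞 K)) : FractionalIdeal (𝓞 K)⁰ K) := by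
    rw [FractionalIdeal.coeIdeal_span_singleton, FractionalIdeal.spanSingleton_mul_spanSingleton,
      div_eq_inv_mul]
  rw [FractionalIdeal.count_well_defined K v hI he, map_div₀, v.valuation_of_algebraMap,
    v.valuation_of_algebraMap, v.intValuation_if_neg hx0, v.intValuation_if_neg hy0,
    ← WithZero.exp_sub]
  congr 1
  ring

theorem tEPw : S_EPw := by
  classical
  intro K _ _ p hp β hβ h
  set I := FractionalIdeal.spanSingleton (𝓞 K)⁰ β with hIdef
  have hI : I ≠ 0 := by
    rw [hIdef, Ne, FractionalIdeal.spanSingleton_eq_zero_iff]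
    exact hβ
  have hdvd : ∀ v : HeightOneSpectrum (𝓞 K), (p : ℤ) ∣ FractionalIdeal.count K v I := by
    intro v
    obtain ⟨γ, hγ⟩ := h v
    rw [EPw_val K v β hβ] at hγ
    have hγ0 : γ ≠ 0 := by
      rintro rfl
      rw [zero_pow hp.ne'] at hγ
      exact WithZero.exp_ne_zero hγ
    obtain ⟨g, rfl⟩ : ∃ g : ℤ, γ = WithZero.exp g :=
      ⟨WithZero.log γ, (WithZero.exp_log hγ0).symm⟩
    rw [← WithZero.exp_nsmul, WithZero.exp_inj] at hγ
    refine ⟨-g, ?_⟩
    rw [nsmul_eq_mul] at hγ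
    linarith
  set J : FractionalIdeal (𝓞 K)⁰ K := ∏ᶠ v : HeightOneSpectrum (𝓞 K),
    (v.asIdeal : FractionalIdeal (𝓞 K)⁰ K) ^ (FractionalIdeal.count K v I / p) with hJ
  have hfin : (Function.mulSupport fun v : HeightOneSpectrum (𝓞 K) =>
      (v.asIdeal : FractionalIdeal (𝓞 K)⁰ K) ^ (FractionalIdeal.count K v I / p)).Finite := by
    have h1 := FractionalIdeal.finite_factors (K := K) I
    rw [Filter.eventually_cofinite] at h1
    refine h1.subset fun v hv h0 => hv ?_
    change _ ^ (FractionalIdeal.count K v I / p) = 1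
    rw [h0, Int.zero_ediv, zpow_zero]
  have hJI : J ^ p = I := by
    rw [hJ, finprod_pow hfin, ← FractionalIdeal.finprod_heightOneSpectrum_factorization' K hI]
    refine finprod_congr fun v => ?_
    rw [← zpow_natCast, ← zpow_mul, FractionalIdeal.finprod_heightOneSpectrum_factorization' K hI,
      Int.ediv_mul_cancel (hdvd v)]
  have hfg : (J : Submodule (𝓞 K) K).FG := by
    have h1 : IsNoetherian (𝓞 K) (J : Submodule (𝓞 K) K) := FractionalIdeal.isNoetherian J
    exact Module.Finite.iff_fg.1 inferInstance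
  obtain ⟨s, hs⟩ := hfg
  refine ⟨s, ?_⟩
  rw [hs, ← FractionalIdeal.coe_pow, hJI, hIdef, FractionalIdeal.coe_spanSingleton]

end Pool.Agent.FW
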