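import Pool.Agent.Lib.FW.SpecE

/-!
# S_ERp: the primes above `p` in the cyclotomic tower
-/

open scoped Pointwise NumberField WithZero

open IsDedekindDomain

noncomputable section

namespace Pool.Agent.FW

open Pool.Agent.MuZ

private theorem ERp_lies (p : ℕ) [hp : Fact p.Prime] (R : Type) [CommRing R] (P : Ideal R)
    (hP : P.IsPrime) (h : (p : R) ∈ P) : P.LiesOver (Ideal.span {(p : ℤ)}) := by
  constructor
  have hm : (Ideal.span {(p : ℤ)}).IsMaximal := Int.ideal_span_isMaximal_of_prime p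
  refine hm.eq_of_le ?_ ?_
  · exact (Ideal.IsPrime.under ℤ P).ne_top
  · rw [Ideal.span_singleton_le_iff_mem, Ideal.mem_comap]
    simpa using h

theorem tERp : S_ERp := by
  intro p f n hpF _ hpf K L _ _ _ _ _ _ _ β w hw
  have hpp : p.Prime := hpF.out
  have hwP : w.asIdeal.IsPrime := w.isPrime
  have hv0P : (w.asIdeal.under (𝓞 K)).IsPrime := Ideal.IsPrime.under (𝓞 K) w.asIdeal
  have hpv : (p : 𝓞 K) ∈ w.asIdeal.under (𝓞 K) := by
    rw [Ideal.mem_comap]
    simpa using hw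
  have hne : w.asIdeal.under (𝓞 K) ≠ ⊥ := by
    intro h
    rw [h, Ideal.mem_bot] at hpv
    exact hpp.ne_zero (by exact_mod_cast hpv)
  let v : HeightOneSpectrum (𝓞 K) := ⟨w.asIdeal.under (𝓞 K), hv0P, hne⟩
  have hvP : v.asIdeal.IsPrime := hv0P
  have hlies : w.asIdeal.LiesOver v.asIdeal := ⟨rfl⟩
  have hwl : w.asIdeal.LiesOver (Ideal.span {(p : ℤ)}) := ERp_lies p _ _ hwP hw
  have hvl : v.asIdeal.LiesOver (Ideal.span {(p : ℤ)}) := ERp_lies p _ _ hvP hpv
  have e1 : w.asIdeal.ramificationIdx ℤ = p ^ (n + 1) * (p - 1) :=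
    IsCyclotomicExtension.Rat.ramificationIdx_eq (n := f * p ^ (n + 2)) (m := f) (k := n + 1)
      (K := L) (P := w.asIdeal) (p := p) (by ring) hpf
  have e2 : v.asIdeal.ramificationIdx ℤ = p ^ n * (p - 1) :=
    IsCyclotomicExtension.Rat.ramificationIdx_eq (n := f * p ^ (n + 1)) (m := f) (k := n)
      (K := K) (P := v.asIdeal) (p := p) (by ring) hpf
  have e3 : w.asIdeal.ramificationIdx ℤ =
      v.asIdeal.ramificationIdx ℤ * w.asIdeal.ramificationIdx (𝓞 K) :=
    Ideal.ramificationIdx_tower v.asIdeal w.asIdeal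
  have e4 : w.asIdeal.ramificationIdx (𝓞 K) = p := by
    rw [e1, e2] at e3
    have h1 : 0 < p ^ n * (p - 1) :=
      Nat.mul_pos (Nat.pow_pos hpp.pos) (Nat.sub_pos_of_lt hpp.one_lt)
    have h2 : p ^ n * (p - 1) * w.asIdeal.ramificationIdx (𝓞 K) = p ^ n * (p - 1) * p := by
      rw [← e3]
      ring
    exact Nat.eq_of_mul_eq_mul_left h1 h2
  have h3 : v.asIdeal.ramificationIdx' w.asIdeal = w.asIdeal.ramificationIdx (𝓞 K) :=
    Ideal.ramificationIdx'_eq_ramificationIdx v.asIdeal w.asIdeal v.ne_bot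
  have h4 := HeightOneSpectrum.valuation_liesOver L v w β
  refine ⟨v.valuation K β, ?_⟩
  rw [← h4, h3, e4]

end Pool.Agent.FW
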