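import Pool.Agent.Lib.FW.SpecE

/-!
# FW, part E, module St: the Stickelberger relation for a character
-/

open scoped Pointwise NumberField WithZero

open IsDedekindDomain

noncomputable section

namespace Pool.Agent.FW

open Pool.Agent.MuZ

/-- The powers of a primitive `p`-th root of unity depend only on the exponent modulo `p`. -/
private theorem ESt_pow (p : ℕ) [Fact p.Prime] (ζ : Om) (hζ : IsPrimitiveRoot ζ p) (i j : ℕ) :
    ζ ^ i = ζ ^ j ↔ (i : ZMod p) = (j : ZMod p) := by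
  rw [(hζ.isOfFinOrder (Fact.out : p.Prime).ne_zero).pow_eq_pow_iff_modEq, ← hζ.eq_orderOf,
    ZMod.natCast_eq_natCast_iff]

/-- `M` is normal. -/
private theorem ESt_conj (p f : ℕ) (s τ : Gal(Om/ℚ)) (hτ : τ ∈ MM p f) :
    s * τ * s⁻¹ ∈ MM p f := by
  intro z hz
  rw [AlgEquiv.mul_apply, AlgEquiv.mul_apply, hτ _ (hz.map s⁻¹), ← AlgEquiv.mul_apply,
    mul_inv_cancel, AlgEquiv.one_apply]

/-- The commutator of `J` with any automorphism is in `M`. -/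
private theorem ESt_comm (p f : ℕ) (J : Gal(Om/ℚ))
    (hJ : ∀ z : Om, IsRt p f z → J z = z⁻¹) (s : Gal(Om/ℚ)) :
    s * J * s⁻¹ * J ∈ MM p f := by
  intro z hz
  rw [AlgEquiv.mul_apply, AlgEquiv.mul_apply, AlgEquiv.mul_apply, hJ z hz, map_inv₀, map_inv₀,
    hJ _ (hz.map s⁻¹), inv_inv, ← AlgEquiv.mul_apply, mul_inv_cancel, AlgEquiv.one_apply]

/-- `(σ a)⁻¹ b * J ((σ a)⁻¹ b)` is a `p`-th root of unity. -/
private theorem ESt_unit (p f : ℕ) (g : Gal(Om/ℚ) → ZMod p) (J : Gal(Om/ℚ)) (hJ2 : J * J = 1)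
    (hJ : ∀ z : Om, IsRt p f z → J z = z⁻¹) (ζ b : Om) (hζ : ζ ^ p = 1) (hb : b ≠ 0)
    (hg : ∀ σ ∈ MM p f, σ b = ζ ^ (g σ).val * b) (hJb : J b = b⁻¹) (s : Gal(Om/ℚ)) :
    (s⁻¹ b * J (s⁻¹ b)) ^ p = 1 := by
  have h1 : J * s⁻¹ = s⁻¹ * ((s * J * s⁻¹ * J) * J) := by
    rw [mul_assoc (s * J * s⁻¹), hJ2, mul_one, mul_assoc s, inv_mul_cancel_left]
  have h2 : J (s⁻¹ b) = s⁻¹ ((s * J * s⁻¹ * J) (J b)) := by
    rw [← AlgEquiv.mul_apply, h1, AlgEquiv.mul_apply, AlgEquiv.mul_apply _ J]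
  have h3 := hg _ (ESt_comm p f J hJ s)
  rw [h2, hJb, map_inv₀, h3, map_inv₀, map_mul, map_pow]
  have h4 : s⁻¹ b ≠ 0 := by
    rw [ne_eq, map_eq_zero]
    exact hb
  have h5 : (s⁻¹ ζ) ^ p = 1 := by rw [← map_pow, hζ, map_one]
  rw [mul_inv, mul_comm (s⁻¹ b), mul_assoc, inv_mul_cancel₀ h4, mul_one, ← inv_pow, ← pow_mul,
    mul_comm _ p, pow_mul, inv_pow, h5, inv_one, one_pow]

/-- The action of `τ ∈ M` on `(σ a)⁻¹ b`. -/
private theorem ESt_act (p f : ℕ) [Fact p.Prime] (g : Gal(Om/ℚ) → ZMod p) (ζ b : Om)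
    (hζ : IsPrimitiveRoot ζ p) (hg : ∀ σ ∈ MM p f, σ b = ζ ^ (g σ).val * b)
    (s : Gal(Om/ℚ)) (a : ℕ) (ha : (a : ZMod p) ≠ 0) (hs : s ζ = ζ ^ a) (τ : Gal(Om/ℚ))
    (hτ : τ ∈ MM p f) :
    τ (s⁻¹ b) = ζ ^ (((a : ZMod p)⁻¹).val * (g (s * τ * s⁻¹)).val) * s⁻¹ b := by
  have h1 : τ (s⁻¹ b) = s⁻¹ ((s * τ * s⁻¹) b) := by
    rw [← AlgEquiv.mul_apply, ← AlgEquiv.mul_apply, ← mul_assoc, ← mul_assoc, inv_mul_cancel,
      one_mul]
  have h2 : s⁻¹ ζ = ζ ^ ((a : ZMod p)⁻¹).val := by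
    apply s.injective
    rw [← AlgEquiv.mul_apply, mul_inv_cancel, AlgEquiv.one_apply, map_pow, hs, ← pow_mul]
    conv_lhs => rw [← pow_one ζ]
    rw [ESt_pow p ζ hζ]
    push_cast
    rw [ZMod.natCast_zmod_val, mul_inv_cancel₀ ha]
  rw [h1, hg _ (ESt_conj p f s τ hτ), map_mul, map_pow, h2, ← pow_mul]

theorem tESt (h1 : S_ECy) (h2 : S_EJ) (h3 : S_EKr) : S_ESt := by
  intro p f _ hp2 hf g J hcc ζ b hζ hb hg hJb n hbn c σ hσ hPr τ hτ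
  have hp : p.Prime := Fact.out
  obtain ⟨-, -, hmap, -, -, hle, -, -⟩ := h1
  obtain ⟨hJ2, hJr, -⟩ := h2.2 J hcc
  have hJ : ∀ z : Om, IsRt p f z → J z = z⁻¹ := fun z hz => by
    obtain ⟨k, hk⟩ := hz
    exact hJr _ z (Nat.mul_pos hf (pow_pos hp.pos k)) hk
  set m := f * p ^ (n + 1) with hm
  have hpm : p ∣ m := Dvd.dvd.mul_left (dvd_pow_self p n.succ_ne_zero) f
  have hζp : ζ ^ p = 1 := hζ.pow_eq_one
  have hζm : ζ ^ m = 1 := by
    obtain ⟨k, hk⟩ := hpm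
    rw [hk, pow_mul, hζp, one_pow]
  have hne : ∀ s : Gal(Om/ℚ), s b ≠ 0 := fun s => by
    rw [ne_eq, map_eq_zero]
    exact hb
  set B : Om := ∏ a ∈ Un m, ((σ a)⁻¹ b) ^ (c * a / m) with hB
  have hB0 : B ≠ 0 := Finset.prod_ne_zero_iff.mpr fun a _ => pow_ne_zero _ (hne _)
  obtain ⟨k, hk, e, hk0, he, hBke⟩ := hPr
  have hBp : B ^ p ∈ KI p f := by
    apply hle p f n
    rw [hB, ← Finset.prod_pow]
    refine prod_mem fun a _ => ?_
    rw [← pow_mul, mul_comm _ p, pow_mul, ← map_pow]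
    exact pow_mem (hmap _ _ _ hbn) _
  have hBJ : (B * J B) ^ p = 1 := by
    rw [hB, map_prod, ← Finset.prod_mul_distrib, ← Finset.prod_pow]
    refine Finset.prod_eq_one fun a _ => ?_
    rw [map_pow, ← mul_pow, ← pow_mul, mul_comm _ p, pow_mul,
      ESt_unit p f g J hJ2 hJ ζ b hζp hb hg hJb, one_pow]
  have hB2 : τ (B ^ 2) = B ^ 2 := h3 p f hf J hcc B k e (hle p f n hk) hk0 he hBke hBp hBJ τ hτ
  have ha0 : ∀ a ∈ Un m, (a : ZMod p) ≠ 0 := by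
    intro a ha h0
    rw [Un, Finset.mem_filter] at ha
    rw [ZMod.natCast_eq_zero_iff] at h0
    exact hp.one_lt.ne' (Nat.Coprime.eq_one_of_dvd (Nat.Coprime.coprime_dvd_left h0
      (Nat.Coprime.coprime_dvd_right hpm ha.2)) (dvd_refl p))
  set S : ℕ := ∑ a ∈ Un m,
    (((a : ZMod p)⁻¹).val * (g (σ a * τ * (σ a)⁻¹)).val) * (c * a / m) with hS
  have hτB : τ B = ζ ^ S * B := by
    rw [hB, map_prod, hS, ← Finset.prod_pow_eq_pow_sum, ← Finset.prod_mul_distrib]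
    refine Finset.prod_congr rfl fun a ha => ?_
    rw [map_pow, ESt_act p f g ζ b hζ hg (σ a) a (ha0 a ha) (hσ a ha ζ hζm) τ hτ, mul_pow,
      ← pow_mul]
  have hS2 : ζ ^ (S * 2) = ζ ^ 0 := by
    rw [map_pow, hτB, mul_pow, ← pow_mul] at hB2
    rw [pow_zero]
    exact mul_right_cancel₀ (pow_ne_zero 2 hB0) (by rw [hB2, one_mul])
  rw [ESt_pow p ζ hζ] at hS2
  push_cast at hS2
  have h20 : (2 : ZMod p) ≠ 0 := by
    intro h
    have h' : ((2 : ℕ) : ZMod p) = 0 := by exact_mod_cast h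
    rw [ZMod.natCast_eq_zero_iff] at h'
    exact hp2 ((Nat.prime_dvd_prime_iff_eq hp Nat.prime_two).mp h')
  have hS0 : (S : ZMod p) = 0 := (mul_eq_zero.mp hS2).resolve_right h20
  rw [hS] at hS0
  push_cast at hS0
  rw [← hS0]
  refine Finset.sum_congr rfl fun a _ => ?_
  rw [ZMod.natCast_zmod_val, ZMod.natCast_zmod_val]
  ring

end Pool.Agent.FW
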