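import Pool.Agent.Lib.FW.SpecE

/-!
# S_EUn: unramified primes
-/

open scoped Pointwise NumberField WithZero

open IsDedekindDomain

noncomputable section

namespace Pool.Agent.FW

open Pool.Agent.MuZ

theorem tEUn : S_EUn := by
  intro K L _ _ _ _ _ _ p b β hb v w hlies hin
  have := hlies
  have hvP : v.asIdeal.IsPrime := v.isPrime
  have hwP : w.asIdeal.IsPrime := w.isPrime
  have hbot : w.asIdeal.inertia Gal(L/K) = ⊥ := by
    rw [eq_bot_iff]
    intro σ hσ
    rw [Subgroup.mem_bot]
    exact hin σ hσ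
  have hone : Nat.card (w.asIdeal.inertia Gal(L/K)) = 1 := by
    rw [hbot]
    exact Subgroup.card_bot
  have h1 : Nat.card (w.asIdeal.inertia Gal(L/K)) = Ideal.ramificationIdxIn v.asIdeal (𝓞 L) :=
    Ideal.card_inertia_eq_ramificationIdxIn v.asIdeal w.asIdeal
  have h2 := Ideal.ramificationIdxIn_eq_ramificationIdx v.asIdeal w.asIdeal Gal(L/K)
  have h3 : v.asIdeal.ramificationIdx' w.asIdeal = w.asIdeal.ramificationIdx (𝓞 K) :=
    Ideal.ramificationIdx'_eq_ramificationIdx v.asIdeal w.asIdeal v.ne_bot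
  have h4 := HeightOneSpectrum.valuation_liesOver L v w β
  refine ⟨w.valuation L b, ?_⟩
  rw [← map_pow, hb, ← h4, h3, ← h2, ← h1, hone, pow_one]

end Pool.Agent.FW
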