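import Pool.Agent.Lib.FW.SpecE

/-! Part E, module UnO: unramified primes, for subfields of `Om` (helper56). -/

set_option autoImplicit false

open scoped Pointwise NumberField WithZero

open IsDedekindDomain

noncomputable section

namespace Pool.Agent.FW

open Pool.Agent.MuZ

/-- the algebraic integers of `L` in `ZZ` -/
private def EUnO_emb (K : IntermediateField ℚ Om) (L : IntermediateField K Om) : 𝓞 L →+* ZZ :=
  ((algebraMap L Om).comp (algebraMap (𝓞 L) L)).codRestrict (integralClosure ℤ Om) (by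
    intro x
    have h : IsIntegral ℤ ((x : L)) := x.2
    exact h.map (algebraMap L Om).toIntAlgHom)

private theorem EUnO_emb_coe (K : IntermediateField ℚ Om) (L : IntermediateField K Om) (x : 𝓞 L) :
    ((EUnO_emb K L x : ZZ) : Om) = ((x : L) : Om) := rfl

private theorem EUnO_surj (K : IntermediateField ℚ Om) (L : IntermediateField K Om) (y : ZZ)
    (hy : (y : Om) ∈ L) : ∃ x : 𝓞 L, EUnO_emb K L x = y ∧ ((x : L) : Om) = y := by
  have h : IsIntegral ℤ (⟨(y : Om), hy⟩ : L) := by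
    have h1 : IsIntegral ℤ (y : Om) := y.2
    exact (isIntegral_algHom_iff ((algebraMap L Om).toIntAlgHom)
      (algebraMap L Om).injective).1 h1
  exact ⟨⟨⟨(y : Om), hy⟩, h⟩, rfl, rfl⟩

/-- the extension is normal -/
private theorem EUnO_root (K : IntermediateField ℚ Om) (p : ℕ) [Fact p.Prime] (ζ b : Om)
    (hζ : IsPrimitiveRoot ζ p) (hζK : ζ ∈ K) (hb : b ^ p ∈ K) (hb0 : b ≠ 0)
    (σ : Om →ₐ[K] Om) : σ b ∈ IntermediateField.adjoin K {b} := by
  have hp : p.Prime := Fact.out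
  have h1 : (σ b) ^ p = b ^ p := by
    rw [← map_pow]
    exact σ.commutes ⟨b ^ p, hb⟩
  have h2 : (σ b / b) ^ p = 1 := by
    rw [div_pow, h1, div_self (pow_ne_zero p hb0)]
  have : NeZero p := ⟨hp.ne_zero⟩
  obtain ⟨i, -, hi⟩ := hζ.eq_pow_of_pow_eq_one h2
  have h3 : σ b = ζ ^ i * b := by
    rw [hi, div_mul_cancel₀ _ hb0]
  rw [h3]
  have h4 : ζ ∈ IntermediateField.adjoin K {b} :=
    (IntermediateField.adjoin K {b}).algebraMap_mem ⟨ζ, hζK⟩
  exact mul_mem (pow_mem h4 i) (IntermediateField.mem_adjoin_simple_self K b)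

theorem tEUnO (h1 : S_EIne) (h2 : S_EUn) : S_EUnO := by
  intro K _ p _ ζ b hζ hζK hb hb0 P hP hin v hv
  have hp : p.Prime := Fact.out
  set L : IntermediateField K Om := IntermediateField.adjoin K {b} with hL
  have hbint : IsIntegral K b := by
    refine IsIntegral.of_pow hp.pos ?_
    exact isIntegral_algebraMap (x := (⟨b ^ p, hb⟩ : K))
  have hfd : FiniteDimensional K L := IntermediateField.adjoin.finiteDimensional hbint
  have hNF : NumberField L := NumberField.of_module_finite K L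
  have hNO : Normal K Om := Normal.tower_top_of_normal ℚ K Om
  have hN : Normal K L := by
    rw [IntermediateField.normal_iff_forall_map_le]
    intro σ
    rw [hL, IntermediateField.adjoin_map, IntermediateField.adjoin_le_iff]
    rintro _ ⟨x, hx, rfl⟩
    rw [Set.mem_singleton_iff.1 hx]
    exact EUnO_root K p ζ b hζ hζK hb hb0 σ
  have hG : IsGalois K L := ⟨⟩
  -- the prime `w`
  have hKL : ∀ y : 𝓞 K, ((algebraMap (𝓞 K) (𝓞 L) y : 𝓞 L) : L) = algebraMap K L (y : K) :=
    fun y => rfl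
  have hemb : ∀ y : 𝓞 K, ((EUnO_emb K L (algebraMap (𝓞 K) (𝓞 L) y) : ZZ) : Om) =
      ((y : K) : Om) := fun y => rfl
  have hle : ∀ y ∈ v.asIdeal, EUnO_emb K L (algebraMap (𝓞 K) (𝓞 L) y) ∈ P := by
    intro y hy
    obtain ⟨y', hy', h⟩ := hv y hy
    have h3 : EUnO_emb K L (algebraMap (𝓞 K) (𝓞 L) y) = y' := by
      apply Subtype.ext
      rw [hemb, h]
    rw [h3]
    exact hy'
  have hwp : (P.comap (EUnO_emb K L)).IsPrime := Ideal.comap_isPrime _ _
  have hwb : P.comap (EUnO_emb K L) ≠ ⊥ := by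
    intro h
    obtain ⟨y, hy, hy0⟩ := Submodule.exists_mem_ne_zero_of_ne_bot v.ne_bot
    have h3 : algebraMap (𝓞 K) (𝓞 L) y ∈ P.comap (EUnO_emb K L) := hle y hy
    rw [h, Ideal.mem_bot] at h3
    apply hy0
    exact (FaithfulSMul.algebraMap_injective (𝓞 K) (𝓞 L)) (by rw [h3, map_zero])
  let w : HeightOneSpectrum (𝓞 L) := ⟨P.comap (EUnO_emb K L), hwp, hwb⟩
  have hlies : w.asIdeal.LiesOver v.asIdeal := by
    constructor
    have h3 : v.asIdeal ≤ w.asIdeal.under (𝓞 K) := fun y hy => hle y hy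
    have h4 : w.asIdeal.under (𝓞 K) ≠ ⊤ := by
      have : (w.asIdeal.under (𝓞 K)).IsPrime := inferInstance
      exact this.ne_top
    exact v.isMaximal.eq_of_le h4 h3
  have hbL : b ∈ L := IntermediateField.mem_adjoin_simple_self K b
  refine h2 K L p ⟨b, hbL⟩ ⟨b ^ p, hb⟩ rfl v w hlies ?_
  intro σ hσ
  -- extension of `σ`
  let σ' : Om ≃ₐ[K] Om := σ.liftNormal Om
  have hσ' : ∀ x : L, σ' (x : Om) = ((σ x : L) : Om) := fun x => σ.liftNormal_commutes Om x
  let σq : Gal(Om/ℚ) := σ'.restrictScalars ℚ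
  have hσq : ∀ x : Om, σq x = σ' x := fun x => rfl
  obtain ⟨τ, hτ, hτL⟩ := h1 (L.restrictScalars ℚ) P hP σq (by
    intro y hy
    obtain ⟨x, hx, hx'⟩ := EUnO_surj K L y hy
    have h3 : EUnO_emb K L (σ • x - x) = σq • y - y := by
      apply Subtype.ext
      rw [map_sub]
      show ((EUnO_emb K L (σ • x) : ZZ) : Om) - ((EUnO_emb K L x : ZZ) : Om) =
        σq (y : Om) - (y : Om)
      rw [hx, hσq, ← hx', hσ']
      rfl
    rw [← h3]
    exact hσ x)
  have hτK : τ ∈ K.fixingSubgroup := by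
    rw [IntermediateField.mem_fixingSubgroup_iff]
    intro x hx
    have h3 : x ∈ L := L.algebraMap_mem ⟨x, hx⟩
    have h4 : τ x = σ' x := hτL x h3
    rw [h4]
    exact σ'.commutes ⟨x, hx⟩
  have h3 := hin τ hτ hτK
  have h4 : τ b = σ' b := hτL b hbL
  rw [h4] at h3
  have h5 : σ ⟨b, hbL⟩ = ⟨b, hbL⟩ := by
    apply Subtype.ext
    rw [← hσ' ⟨b, hbL⟩]
    exact h3
  -- `σ = 1`
  have h6 : (σ : L →ₐ[K] L) = AlgHom.id K L := by
    apply (IntermediateField.adjoin.powerBasis hbint).algHom_ext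
    rw [IntermediateField.adjoin.powerBasis_gen]
    exact h5
  apply AlgEquiv.ext
  intro x
  exact DFunLike.congr_fun h6 x

end Pool.Agent.FW
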