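import Pool.Agent.Lib.FW.SpecE

/-!
# Part E, module Gen: the Kummer generator of a character
-/

open scoped Pointwise NumberField WithZero

open IsDedekindDomain

noncomputable section

namespace Pool.Agent.FW

open Pool.Agent.MuZ

private def EGen_res (E : IntermediateField ℚ Om) (σ : Gal(Om/ℚ)) : E →ₐ[ℚ] Om :=
  (σ : Om →ₐ[ℚ] Om).comp E.val

private theorem EGen_res_apply (E : IntermediateField ℚ Om) (σ : Gal(Om/ℚ)) (x : E) :
    EGen_res E σ x = σ (x : Om) := rfl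

/-- composition with an automorphism as a permutation of the homomorphisms -/
private def EGen_perm (E : IntermediateField ℚ Om) (τ : Gal(Om/ℚ)) : (E →ₐ[ℚ] Om) ≃ (E →ₐ[ℚ] Om) where
  toFun s := (τ : Om →ₐ[ℚ] Om).comp s
  invFun s := ((τ⁻¹ : Gal(Om/ℚ)) : Om →ₐ[ℚ] Om).comp s
  left_inv s := by
    ext x
    show τ⁻¹ (τ (s x)) = s x
    rw [← AlgEquiv.mul_apply, inv_mul_cancel, AlgEquiv.one_apply]
  right_inv s := by
    ext x
    show τ (τ⁻¹ (s x)) = s x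
    rw [← AlgEquiv.mul_apply, mul_inv_cancel, AlgEquiv.one_apply]

private theorem EGen_perm_apply (E : IntermediateField ℚ Om) (τ : Gal(Om/ℚ)) (s : E →ₐ[ℚ] Om) (x : E) :
    EGen_perm E τ s x = τ (s x) := rfl

private theorem EGen_perm_res (E : IntermediateField ℚ Om) (τ σ : Gal(Om/ℚ)) :
    EGen_perm E τ (EGen_res E σ) = EGen_res E (τ * σ) := rfl

/-- a semi-invariant element for a character of a subgroup `M` of the Galois group -/
private theorem EGen_semi (M : Subgroup Gal(Om/ℚ)) (E : IntermediateField ℚ Om) [FiniteDimensional ℚ E]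
    (χ : Gal(Om/ℚ) → Om) (h0 : ∀ σ ∈ M, χ σ ≠ 0) (h1 : ∀ σ ∈ M, ∀ τ ∈ M, χ (σ * τ) = χ σ * χ τ)
    (h2 : ∀ σ ∈ M, ∀ τ ∈ M, τ (χ σ) = χ σ)
    (h3 : ∀ σ ∈ M, ∀ τ ∈ M, EGen_res E σ = EGen_res E τ → χ σ = χ τ) :
    ∃ b : Om, b ≠ 0 ∧ ∀ τ ∈ M, τ b = χ τ * b := by
  classical
  let c : (E →ₐ[ℚ] Om) → Om := fun s =>
    if h : ∃ σ ∈ M, EGen_res E σ = s then (χ h.choose)⁻¹ else 0
  have hc : ∀ σ ∈ M, c (EGen_res E σ) = (χ σ)⁻¹ := by
    intro σ hσ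
    have h : ∃ σ' ∈ M, EGen_res E σ' = EGen_res E σ := ⟨σ, hσ, rfl⟩
    have e : c (EGen_res E σ) = (χ h.choose)⁻¹ := dif_pos h
    rw [e, h3 _ h.choose_spec.1 σ hσ h.choose_spec.2]
  have hc0 : ∀ s, (¬ ∃ σ ∈ M, EGen_res E σ = s) → c s = 0 := fun s h => dif_neg h
  have hcτ : ∀ τ ∈ M, ∀ s, c s = χ τ * c (EGen_perm E τ s) := by
    intro τ hτ s
    by_cases h : ∃ σ ∈ M, EGen_res E σ = s
    · obtain ⟨σ, hσ, rfl⟩ := h
      rw [hc σ hσ, EGen_perm_res, hc _ (M.mul_mem hτ hσ), h1 τ hτ σ hσ, mul_inv,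
        mul_inv_cancel_left₀ (h0 τ hτ)]
    · have h' : ¬ ∃ σ ∈ M, EGen_res E σ = EGen_perm E τ s := by
        rintro ⟨σ, hσ, e⟩
        refine h ⟨τ⁻¹ * σ, M.mul_mem (M.inv_mem hτ) hσ, ?_⟩
        rw [← EGen_perm_res, e]
        exact (EGen_perm E τ).left_inv s
      rw [hc0 s h, hc0 _ h', mul_zero]
  have hcinv : ∀ τ ∈ M, ∀ s, τ (c s) = c s := by
    intro τ hτ s
    by_cases h : ∃ σ ∈ M, EGen_res E σ = s
    · obtain ⟨σ, hσ, rfl⟩ := h
      rw [hc σ hσ, map_inv₀, h2 σ hσ τ hτ]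
    · rw [hc0 s h, map_zero]
  -- a point where the sum is not zero
  have hx : ∃ x : E, ∑ s : E →ₐ[ℚ] Om, c s * s x ≠ 0 := by
    by_contra hcon
    push Not at hcon
    have hli := linearIndependent_toLinearMap ℚ E Om
    rw [Fintype.linearIndependent_iff] at hli
    have hz : ∑ s : E →ₐ[ℚ] Om, c s • s.toLinearMap = 0 := by
      ext x
      rw [LinearMap.sum_apply]
      exact hcon x
    have := hli c hz (EGen_res E 1)
    rw [hc 1 M.one_mem] at this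
    exact h0 1 M.one_mem (inv_eq_zero.1 this)
  obtain ⟨x, hx⟩ := hx
  refine ⟨∑ s : E →ₐ[ℚ] Om, c s * s x, hx, fun τ hτ => ?_⟩
  rw [map_sum]
  have e1 : ∀ s : E →ₐ[ℚ] Om, τ (c s * s x) = χ τ * (c (EGen_perm E τ s) * (EGen_perm E τ s) x) := by
    intro s
    rw [map_mul, hcinv τ hτ, EGen_perm_apply, ← mul_assoc, ← hcτ τ hτ]
  rw [Finset.sum_congr rfl fun s _ => e1 s, ← Finset.mul_sum,
    Equiv.sum_comp (EGen_perm E τ) (fun s => c s * s x)]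

theorem tEGen : S_EGen := by
  classical
  intro p f _ hp2 hf Ls g hg J hJJ hJz ζ hζ
  obtain ⟨-, hadd, ⟨O, hO⟩, -⟩ := hg
  have hp : p.Prime := Fact.out
  have hζ1 : ζ ^ p = 1 := hζ.pow_eq_one
  have hζ0 : ζ ≠ 0 := hζ.ne_zero hp.ne_zero
  -- the additive character
  obtain ⟨ψ, hψ⟩ : ∃ ψ : AddChar (ZMod p) Om, ∀ a, ψ a = ζ ^ a.val :=
    ⟨AddChar.zmodChar p hζ1, fun a => AddChar.zmodChar_apply hζ1 a⟩
  have hψ0 : ∀ a, ψ a ≠ 0 := fun a => by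
    rw [hψ]
    exact pow_ne_zero _ hζ0
  have hψrt : ∀ a, IsRt p f (ψ a) := by
    intro a
    refine ⟨1, ?_⟩
    rw [hψ, pow_one, ← pow_mul, mul_comm f p, mul_left_comm, pow_mul, hζ1, one_pow]
  have hM : MM p f ≤ UU p f := MM_le_UU p f
  -- the field E
  obtain ⟨E, hE, hEO⟩ := (krullTopology_mem_nhds_one_iff ℚ Om (O : Set Gal(Om/ℚ))).1
    (O.isOpen.mem_nhds O.one_mem)
  have hE' : FiniteDimensional ℚ E := hE
  obtain ⟨b0, hb0, hb⟩ := EGen_semi (MM p f) E (fun σ => ψ (2⁻¹ * g σ)) (fun σ _ => hψ0 _)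
    (fun σ hσ τ hτ => by
      show ψ (2⁻¹ * g (σ * τ)) = ψ (2⁻¹ * g σ) * ψ (2⁻¹ * g τ)
      rw [hadd σ (hM hσ) τ (hM hτ), mul_add, AddChar.map_add_eq_mul])
    (fun σ _ τ hτ => hτ _ (hψrt _))
    (fun σ hσ τ hτ hst => by
      show ψ (2⁻¹ * g σ) = ψ (2⁻¹ * g τ)
      have h1 : σ⁻¹ * τ ∈ O := by
        refine hEO ?_
        rw [SetLike.mem_coe, IntermediateField.mem_fixingSubgroup_iff]
        intro x hx
        have h2 : σ x = τ x := by
          have := congrArg (fun s : E →ₐ[ℚ] Om => s ⟨x, hx⟩) hst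
          exact this
        rw [AlgEquiv.mul_apply, ← h2, ← AlgEquiv.mul_apply, inv_mul_cancel, AlgEquiv.one_apply]
      have h3 : σ⁻¹ * τ ∈ UU p f := hM ((MM p f).mul_mem ((MM p f).inv_mem hσ) hτ)
      have h4 := hadd σ (hM hσ) (σ⁻¹ * τ) h3
      rw [mul_inv_cancel_left, hO _ h3 h1, add_zero] at h4
      rw [h4])
  have hJU : J ∈ UU p f := Or.inr hJz
  have hg1 : g 1 = 0 := by
    have := hadd 1 (UU p f).one_mem 1 (UU p f).one_mem
    rw [mul_one] at this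
    exact (left_eq_add.1 this)
  have h2ne : (2 : ZMod p) ≠ 0 := by
    intro h
    have h' : ((2 : ℕ) : ZMod p) = 0 := by exact_mod_cast h
    rw [ZMod.natCast_eq_zero_iff] at h'
    exact hp2 ((Nat.prime_dvd_prime_iff_eq hp Nat.prime_two).1 h')
  have hgJ : g J = 0 := by
    have := hadd J hJU J hJU
    rw [hJJ, hg1, ← two_mul] at this
    exact (mul_eq_zero.1 this.symm).resolve_left h2ne
  have hJJa : ∀ x : Om, J (J x) = x := by
    intro x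
    rw [← AlgEquiv.mul_apply, hJJ, AlgEquiv.one_apply]
  have hJb0 : J b0 ≠ 0 := by
    intro h
    exact hb0 (by rw [← hJJa b0, h, map_zero])
  have hbJ : ∀ τ ∈ MM p f, τ (J b0) = (ψ (2⁻¹ * g τ))⁻¹ * J b0 := by
    intro τ hτ
    have hmem : J * τ * J ∈ MM p f := by
      intro z hz
      rw [AlgEquiv.mul_apply, AlgEquiv.mul_apply, hJz z hz, hτ _ hz.inv, hJz _ hz.inv, inv_inv]
    have hgτ : g (J * τ * J) = g τ := by
      rw [hadd (J * τ) ((UU p f).mul_mem hJU (hM hτ)) J hJU, hadd J hJU τ (hM hτ), hgJ, zero_add,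
        add_zero]
    have h1 : τ (J b0) = J ((J * τ * J) b0) := by
      rw [AlgEquiv.mul_apply, AlgEquiv.mul_apply, hJJa]
    have h2 : (J * τ * J) b0 = ψ (2⁻¹ * g (J * τ * J)) * b0 := hb _ hmem
    rw [h1, h2, hgτ, map_mul, hJz _ (hψrt _)]
  refine ⟨b0 / J b0, div_ne_zero hb0 hJb0, fun σ hσ => ?_, ?_⟩
  · have h1 : σ b0 = ψ (2⁻¹ * g σ) * b0 := hb σ hσ
    have h2 : ψ (g σ) = ψ (2⁻¹ * g σ) * ψ (2⁻¹ * g σ) := by
      rw [← AddChar.map_add_eq_mul, ← two_mul, ← mul_assoc, mul_inv_cancel₀ h2ne, one_mul]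
    rw [map_div₀, h1, hbJ σ hσ, ← hψ, h2]
    have h3 := hψ0 (2⁻¹ * g σ)
    field_simp
  · rw [map_div₀, hJJa, inv_div]

end Pool.Agent.FW
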